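import Pool.Agent.T2H09.LV.Rec

/-!
# Qualitative forms
-/

set_option autoImplicit false
open Set Filter Topology Metric

namespace Pool.Agent.T2H09.LV

open Pool.Agent.W746.LD Pool.Agent.T2H09.DH Pool.Agent.T2H09.LU N62a1eb23

lemma closure_of_near {n : ℕ} {c : ℂ} {ε : ℝ} (hε : 0 < ε)
    (h : ∃ᶠ N : ℕ in atTop, Near n (N + 2) c (Real.exp (-(ε * Real.log N ^ 2)))) :
    c ∈ closure (Hy n) := by
  have hlim : Tendsto (fun N : ℕ => Real.exp (-(ε * Real.log N ^ 2))) atTop (𝓝 0) := by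
    apply Real.tendsto_exp_atBot.comp
    apply tendsto_neg_atTop_atBot.comp
    apply Tendsto.const_mul_atTop hε
    exact (tendsto_pow_atTop (by norm_num)).comp (Real.tendsto_log_atTop.comp
      tendsto_natCast_atTop_atTop)
  rw [Metric.mem_closure_iff]
  intro δ hδ
  obtain ⟨N, ⟨c', h1, p, -, z, hz⟩, h2⟩ := (h.and_eventually (hlim.eventually_lt_const hδ)).exists
  refine ⟨c', ⟨p, z, hz⟩, ?_⟩
  rw [dist_comm, dist_eq_norm]
  exact h1.trans_lt h2

/-- Powers of small numbers. -/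
lemma rpow_le_of_le {x C ε : ℝ} {N : ℕ} (hε : 0 < ε) (hN : 2 ≤ N) (hx0 : 0 ≤ x)
    (hx : x ≤ Real.exp (-(C * Real.log N ^ 3))) :
    x ^ (ε / Real.log N) ≤ Real.exp (-(ε * C * Real.log N ^ 2)) := by
  have hl : 0 < Real.log N := Real.log_pos (by exact_mod_cast (by omega : 1 < N))
  calc x ^ (ε / Real.log N) ≤ Real.exp (-(C * Real.log N ^ 3)) ^ (ε / Real.log N) := by gcongr
    _ = Real.exp (-(C * Real.log N ^ 3) * (ε / Real.log N)) := (Real.exp_mul _ _).symm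
    _ = Real.exp (-(ε * C * Real.log N ^ 2)) := by
      congr 1
      field_simp

/-- The growth theorem in multiplicative form. -/
theorem growV {n : ℕ} (hn : 2 ≤ n) : ∃ C ε : ℝ, 0 < C ∧ 0 < ε ∧ ∀ c ∈ multibrotSet n,
    ∀ N : ℕ, 2 ≤ N → Real.exp (C * Real.log N ^ 3) ≤ ‖P n c c N‖ →
    Near n (N + 2) c ((‖P n c c N‖⁻¹) ^ (ε / Real.log N)) := by
  obtain ⟨C, ε, hC, hε, h⟩ := quasiV hn
  refine ⟨C, ε, hC, hε, ?_⟩
  intro c hc N hN hyp
  have hP : 0 < ‖P n c c N‖ := (Real.exp_pos _).trans_le hyp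
  obtain ⟨c', h1, h2⟩ := h c hc N hN (by rwa [Real.le_log_iff_exp_le hP])
  refine ⟨c', h1.trans (le_of_eq ?_), h2⟩
  rw [Real.rpow_def_of_pos (inv_pos.mpr hP), Real.log_inv]
  congr 1
  ring

end Pool.Agent.T2H09.LV
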