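import Pool.Agent.T2H09.LU.MB
import Pool.Agent.T2H09.LU.HO
import Pool.Agent.T2H09.LU.MA
import Pool.Agent.T2H09.LU.Hole2
import Pool.Agent.T2H09.LU.TR
import Pool.Agent.T2H09.LU.CT

/-!
# The masses, for finitely many points of the orbit
-/

set_option autoImplicit false
open Set Filter Topology Metric MeasureTheory
open scoped ENNReal

namespace Pool.Agent.T2H09.LV

open Pool.Agent.W746.LD Pool.Agent.T2H09.DH Pool.Agent.T2H09.LU N62a1eb23

theorem annulus_mass0 {n : ℕ} (hn : 2 ≤ n) {c : ℂ} (hc : c ∈ multibrotSet n)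
    {N : ℕ} (h0 : ∀ j < N, orb n c c j ≠ 0) {ε : ℝ}
    (hε : ∫⁻ w in closedBall (0 : ℂ) 3, ‖er n c N w‖ₑ ≤ ENNReal.ofReal ε) (k : ℕ) :
    ∫⁻ w in UU n c k \ UU n c (k + 1), ‖qd n c N w‖ₑ ≤ ENNReal.ofReal ε := by
  set E : Set ℂ := UU n c k with hE
  have hEm : MeasurableSet E := (isOpen_UU' n c k).measurableSet
  have hqm := measurable_qd n c N
  have hX : ∀ j, ‖orb n c c j‖ + 3 < 6 := by
    intro j
    have := mem_multibrot_orb hn hc j
    linarith
  have hE3 : E ⊆ closedBall 0 3 := UU_sub_ball hn hc k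
  -- finiteness
  have hfin : ∫⁻ w in E, ‖qd n c N w‖ₑ ≠ ⊤ := by
    have h1 : ∫⁻ w in closedBall (0 : ℂ) 3, ‖qd n c N w‖ₑ ≤
        ∑ j ∈ Finset.range N, ENNReal.ofReal (2 * Real.pi * 6 * ‖(P n c c j)⁻¹‖) := by
      calc ∫⁻ w in closedBall (0 : ℂ) 3, ‖qd n c N w‖ₑ
          ≤ ∫⁻ w in closedBall (0 : ℂ) 3,
              ∑ j ∈ Finset.range N, ‖(P n c c j)⁻¹ / (w - orb n c c j)‖ₑ :=
            lintegral_mono fun w => enorm_sum_le _ _
        _ = ∑ j ∈ Finset.range N,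
              ∫⁻ w in closedBall (0 : ℂ) 3, ‖(P n c c j)⁻¹ / (w - orb n c c j)‖ₑ := by
            apply lintegral_finsetSum'
            intro j _
            exact (measurable_const.div (measurable_id.sub_const _)).enorm.aemeasurable
        _ ≤ _ := Finset.sum_le_sum fun j _ => int_term_le _ _ (hX j)
    refine ne_top_of_le_ne_top ?_ ((lintegral_mono_set hE3).trans h1)
    exact (ENNReal.sum_lt_top.mpr fun j _ => ENNReal.ofReal_lt_top).ne
  -- the orbit is a null set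
  have hae : ∀ᵐ w : ℂ, ∀ j, w ≠ orb n c c j := by
    rw [ae_all_iff]
    intro j
    rw [ae_iff]
    simp
  have her : ∫⁻ w in E, ‖er n c N w‖ₑ ≤ ENNReal.ofReal ε := (lintegral_mono_set hE3).trans hε
  have key : ∫⁻ w in E, ‖qd n c N w‖ₑ ≤ (∫⁻ w in UU n c (k + 1), ‖qd n c N w‖ₑ) +
      ENNReal.ofReal ε := by
    calc ∫⁻ w in E, ‖qd n c N w‖ₑ
        ≤ ∫⁻ w in E, (‖∑ ζ ∈ (Tp n c - Polynomial.C w).roots.toFinset,
            qd n c N ζ / (n * ζ ^ (n - 1)) ^ 2‖ₑ + ‖er n c N w‖ₑ) := by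
          apply lintegral_mono_ae
          apply ae_restrict_of_ae
          filter_upwards [hae] with w hw
          rw [push_qd hn h0 (hw 0) (fun j _ => hw (j + 1))]
          have h2 : qd n c N w = (qd n c N w + er n c N w) - er n c N w := by ring
          calc ‖qd n c N w‖ₑ = ‖(qd n c N w + er n c N w) - er n c N w‖ₑ := by rw [← h2]
            _ ≤ _ := enorm_sub_le
      _ = (∫⁻ w in E, ‖∑ ζ ∈ (Tp n c - Polynomial.C w).roots.toFinset,
            qd n c N ζ / (n * ζ ^ (n - 1)) ^ 2‖ₑ) + ∫⁻ w in E, ‖er n c N w‖ₑ := by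
          apply lintegral_add_right
          unfold er
          exact ((measurable_const.div (measurable_id.sub_const _)).sub
            (measurable_const.div (measurable_id.sub_const _))).enorm
      _ ≤ _ := by
          refine add_le_add ((contr hn c hqm hEm).trans ?_) her
          rw [hE, UU_preim]
  have hsub : UU n c (k + 1) ⊆ E := UU_anti hn hc k
  have h3 : (∫⁻ w in UU n c (k + 1), ‖qd n c N w‖ₑ) +
      ∫⁻ w in E \ UU n c (k + 1), ‖qd n c N w‖ₑ ≤
      (∫⁻ w in UU n c (k + 1), ‖qd n c N w‖ₑ) + ENNReal.ofReal ε := by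
    have h4 := lintegral_inter_add_sdiff (μ := volume) (fun w => ‖qd n c N w‖ₑ) E
      (isOpen_UU' n c (k + 1)).measurableSet
    rw [inter_eq_right.mpr hsub] at h4
    rw [h4]
    exact key
  refine ENNReal.le_of_add_le_add_left ?_ h3
  exact ne_top_of_le_ne_top hfin (lintegral_mono_set hsub)

theorem hole_mass0 {n : ℕ} (hn : 2 ≤ n) {c : ℂ} (hc : c ∈ multibrotSet n)
    {N : ℕ} (h0 : ∀ j < N, orb n c c j ≠ 0) {ε : ℝ} (hε0 : 0 ≤ ε)
    (hε : ∫⁻ w in closedBall (0 : ℂ) 3, ‖er n c N w‖ₑ ≤ ENNReal.ofReal ε) {k m : ℕ} (hm : m ≤ k)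
    {A : Set ℂ} (hA : ∀ x ∈ A, x ∈ UU n c (k - m) ∧ x ∉ UU n c (k + 1)) :
    ∫⁻ w in A, ‖qd n c N w‖ₑ ≤ ENNReal.ofReal ((m + 1) * ε) := by
  have key : ∀ l j : ℕ, ∫⁻ w in UU n c j \ UU n c (j + l), ‖qd n c N w‖ₑ ≤
      ENNReal.ofReal (l * ε) := by
    intro l j
    induction l with
    | zero => simp
    | succ l ih =>
      have hsub : UU n c j \ UU n c (j + (l + 1)) ⊆
          (UU n c j \ UU n c (j + l)) ∪ (UU n c (j + l) \ UU n c (j + l + 1)) := by
        intro x hx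
        by_cases hxl : x ∈ UU n c (j + l)
        · exact Or.inr ⟨hxl, hx.2⟩
        · exact Or.inl ⟨hx.1, hxl⟩
      calc ∫⁻ w in UU n c j \ UU n c (j + (l + 1)), ‖qd n c N w‖ₑ
          ≤ ∫⁻ w in (UU n c j \ UU n c (j + l)) ∪ (UU n c (j + l) \ UU n c (j + l + 1)),
              ‖qd n c N w‖ₑ := lintegral_mono_set hsub
        _ ≤ (∫⁻ w in UU n c j \ UU n c (j + l), ‖qd n c N w‖ₑ) +
            ∫⁻ w in UU n c (j + l) \ UU n c (j + l + 1), ‖qd n c N w‖ₑ :=
            lintegral_union_le _ _ _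
        _ ≤ ENNReal.ofReal (l * ε) + ENNReal.ofReal ε :=
            add_le_add ih (annulus_mass0 hn hc h0 hε (j + l))
        _ = ENNReal.ofReal ((l + 1 : ℕ) * ε) := by
            rw [← ENNReal.ofReal_add (by positivity) hε0]
            congr 1
            push_cast
            ring
  have h1 : A ⊆ UU n c (k - m) \ UU n c ((k - m) + (m + 1)) := by
    intro x hx
    obtain ⟨h2, h3⟩ := hA x hx
    refine ⟨h2, ?_⟩
    have e : (k - m) + (m + 1) = k + 1 := by omega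
    rwa [e]
  refine (lintegral_mono_set h1).trans ((key (m + 1) (k - m)).trans ?_)
  apply ENNReal.ofReal_le_ofReal
  push_cast
  exact le_rfl

end Pool.Agent.T2H09.LV
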