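import Pool.Agent.T2H09.LV.TC
import Pool.Agent.T2H09.LV.MB0
import Pool.Agent.T2H09.LU.Star

/-!
# The main estimate: holes at all scales
-/

set_option autoImplicit false
open Set Filter Topology Metric MeasureTheory Polynomial
open scoped ENNReal

namespace Pool.Agent.T2H09.LV

open Pool.Agent.W746.LD Pool.Agent.T2H09.DH Pool.Agent.T2H09.LU N62a1eb23

/-- A monotone sequence with small total increment from small jumps has a large jump. -/
theorem jump (κ : ℕ → ℝ) (hmono : Monotone κ) {L lam x : ℝ} (h0 : κ 0 ≤ x)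
    (hL : ∀ k, κ (k + 1) ≤ κ k + L) {M : ℕ} (hlam : M * lam ≤ 1) (hlam0 : 0 ≤ lam)
    (hx : x + 2 < κ M) :
    ∃ k, 1 ≤ k ∧ k ≤ M ∧ κ (k - 1) + lam ≤ κ k ∧ x < κ k ∧ κ k ≤ x + 2 + L := by
  classical
  have hex1 : ∃ k, x < κ k := ⟨M, by linarith⟩
  have hex2 : ∃ k, x + 2 < κ k := ⟨M, hx⟩
  obtain ⟨k1, hk1⟩ : ∃ k, k = Nat.find hex1 := ⟨_, rfl⟩
  obtain ⟨k2, hk2⟩ : ∃ k, k = Nat.find hex2 := ⟨_, rfl⟩
  have a1 : x < κ k1 := by rw [hk1]; exact Nat.find_spec hex1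
  have a2 : x + 2 < κ k2 := by rw [hk2]; exact Nat.find_spec hex2
  have b1 : ∀ k < k1, κ k ≤ x := by
    intro k hk
    rw [hk1] at hk
    exact not_lt.mp (Nat.find_min hex1 hk)
  have b2 : ∀ k < k2, κ k ≤ x + 2 := by
    intro k hk
    rw [hk2] at hk
    exact not_lt.mp (Nat.find_min hex2 hk)
  have hk1pos : 1 ≤ k1 := by
    by_contra hlt
    have : k1 = 0 := by omega
    rw [this] at a1
    linarith
  have hk12 : k1 ≤ k2 := by
    by_contra hlt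
    push Not at hlt
    have := b1 k2 hlt
    linarith
  have hk2M : k2 ≤ M := by rw [hk2]; exact Nat.find_min' hex2 hx
  by_contra hcon
  push Not at hcon
  have hsm : ∀ k, k1 ≤ k → k ≤ k2 → κ k ≤ κ (k - 1) + lam := by
    intro k h1 h2
    by_contra hlt
    push Not at hlt
    have h3 := hcon k (by omega) (by omega) hlt.le (a1.trans_le (hmono h1))
    have h4 : κ k ≤ κ k2 := hmono h2
    have h5 : κ k2 ≤ κ (k2 - 1) + L := by
      have := hL (k2 - 1)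
      rwa [show k2 - 1 + 1 = k2 by omega] at this
    have h6 := b2 (k2 - 1) (by omega)
    linarith
  have hind : ∀ i : ℕ, k1 - 1 + i ≤ k2 → κ (k1 - 1 + i) ≤ κ (k1 - 1) + i * lam := by
    intro i
    induction i with
    | zero => intro _; simp
    | succ i ih =>
      intro hi
      have h1 := ih (by omega)
      have h2 := hsm (k1 - 1 + (i + 1)) (by omega) hi
      rw [show k1 - 1 + (i + 1) - 1 = k1 - 1 + i by omega] at h2
      push_cast
      linarith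
  have h1 := hind (k2 - (k1 - 1)) (by omega)
  rw [show k1 - 1 + (k2 - (k1 - 1)) = k2 by omega] at h1
  have h2 := b1 (k1 - 1) (by omega)
  have h3 : ((k2 - (k1 - 1) : ℕ) : ℝ) * lam ≤ M * lam := by
    apply mul_le_mul_of_nonneg_right _ hlam0
    exact_mod_cast (by omega : k2 - (k1 - 1) ≤ M)
  linarith

/-- The logarithm of the derivative. -/
noncomputable def aa (n : ℕ) (c : ℂ) (j : ℕ) : ℝ := Real.log ‖P n c c j‖

lemma P_ne {n : ℕ} (hn : 2 ≤ n) {c : ℂ} {M : ℕ} (h0 : ∀ j < M, orb n c c j ≠ 0) {j : ℕ}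
    (hj : j ≤ M) : P n c c j ≠ 0 := P_ne_zero hn fun i hi => h0 i (by omega)

lemma rho0 {n : ℕ} {c : ℂ} {M : ℕ} (h0 : ∀ j < M, orb n c c j ≠ 0) {j : ℕ} (hj : 1 ≤ j)
    (hjM : j ≤ M) : 0 < ‖orb n c c j - c‖ := by
  obtain ⟨i, rfl⟩ : ∃ i, j = i + 1 := ⟨j - 1, by omega⟩
  rw [norm_orb_succ_sub]
  exact pow_pos (norm_pos_iff.mpr (h0 i (by omega))) _

lemma rho4 {n : ℕ} (hn : 2 ≤ n) {c : ℂ} (hc : c ∈ multibrotSet n) (j : ℕ) :
    ‖orb n c c j - c‖ ≤ 4 := by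
  refine (norm_sub_le _ _).trans ?_
  have := mem_multibrot_orb hn hc j
  have := norm_le_two hn hc
  linarith

lemma exp_kk0 {n : ℕ} {c : ℂ} {M : ℕ} (h0 : ∀ j < M, orb n c c j ≠ 0) {j : ℕ} (hj : 1 ≤ j)
    (hjM : j ≤ M) : Real.exp (-kk n c j) = ‖orb n c c j - c‖ := by
  unfold kk
  rw [neg_neg, Real.exp_log (rho0 h0 hj hjM)]

lemma kk_ge {n : ℕ} (hn : 2 ≤ n) {c : ℂ} (hc : c ∈ multibrotSet n) {M : ℕ}
    (h0 : ∀ j < M, orb n c c j ≠ 0) {j : ℕ} (hj : 1 ≤ j) (hjM : j ≤ M) : -2 ≤ kk n c j := by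
  unfold kk
  have h1 := Real.log_le_log (rho0 h0 hj hjM) (rho4 hn hc j)
  have h2 : Real.log 4 ≤ 2 := by
    rw [show (4 : ℝ) = 2 ^ 2 by norm_num, Real.log_pow]
    have := Real.log_le_sub_one_of_pos (show (0 : ℝ) < 2 by norm_num)
    push_cast
    linarith
  linarith

lemma ep_pos {n : ℕ} (hn : 2 ≤ n) {c : ℂ} (hc : c ∈ multibrotSet n) {M : ℕ}
    (h0 : ∀ j < M, orb n c c j ≠ 0) {J : ℕ} (hJ1 : 1 ≤ J) (hJM : J ≤ M) {C : ℝ} (hC : 0 < C) :
    0 < ep n c C J := by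
  unfold ep
  have h1 := P_ne hn h0 hJM
  have h2 := rho0 h0 hJ1 hJM
  have h3 := kk_ge hn hc h0 hJ1 hJM
  unfold kk at h3
  have h4 : 0 < 5 - Real.log ‖orb n c c J - c‖ := by linarith
  have h5 : 0 < ‖(P n c c J)⁻¹‖ := norm_pos_iff.mpr (inv_ne_zero h1)
  positivity

lemma log_ep1 {n : ℕ} (hn : 2 ≤ n) {c : ℂ} (hc : c ∈ multibrotSet n) {M : ℕ}
    (h0 : ∀ j < M, orb n c c j ≠ 0) {J : ℕ} (hJ1 : 1 ≤ J) (hJM : J ≤ M) {C : ℝ} (hC : 0 < C) :
    Real.log (ep n c C J) ≤ Real.log C - aa n c J := by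
  have h1 := P_ne hn h0 hJM
  have h5 : 0 < ‖(P n c c J)⁻¹‖ := norm_pos_iff.mpr (inv_ne_zero h1)
  have h6 : ep n c C J ≤ C * ‖(P n c c J)⁻¹‖ := by
    unfold ep
    exact mul_le_of_le_one_right (by positivity) (min_le_left _ _)
  refine (Real.log_le_log (ep_pos hn hc h0 hJ1 hJM hC) h6).trans (le_of_eq ?_)
  unfold aa
  rw [Real.log_mul hC.ne' h5.ne', norm_inv, Real.log_inv]
  ring

lemma log_ep2 {n : ℕ} (hn : 2 ≤ n) {c : ℂ} (hc : c ∈ multibrotSet n) {M : ℕ}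
    (h0 : ∀ j < M, orb n c c j ≠ 0) {J : ℕ} (hJ1 : 1 ≤ J) (hJM : J ≤ M) {C : ℝ} (hC : 0 < C) :
    Real.log (ep n c C J) ≤ Real.log C - aa n c J - kk n c J + Real.log (5 + kk n c J) := by
  have h1 := P_ne hn h0 hJM
  have h5 : 0 < ‖(P n c c J)⁻¹‖ := norm_pos_iff.mpr (inv_ne_zero h1)
  have h2 := rho0 h0 hJ1 hJM
  have h3 := kk_ge hn hc h0 hJ1 hJM
  have h4 : 0 < 5 + kk n c J := by linarith
  have h6 : ep n c C J ≤ C * ‖(P n c c J)⁻¹‖ * (‖orb n c c J - c‖ * (5 + kk n c J)) := by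
    unfold ep
    have e : 5 + kk n c J = 5 - Real.log ‖orb n c c J - c‖ := by unfold kk; ring
    rw [e]
    exact mul_le_mul_of_nonneg_left (min_le_right _ _) (by positivity)
  refine (Real.log_le_log (ep_pos hn hc h0 hJ1 hJM hC) h6).trans (le_of_eq ?_)
  rw [Real.log_mul (by positivity) (by positivity), Real.log_mul hC.ne' h5.ne',
    Real.log_mul h2.ne' h4.ne', norm_inv, Real.log_inv]
  unfold aa
  have e : Real.log ‖orb n c c J - c‖ = -kk n c J := by unfold kk; ring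
  rw [e]
  ring

/-- The value of the quadratic differential in a hole. -/
lemma qd_le {n : ℕ} (hn : 2 ≤ n) {c : ℂ} (hc : c ∈ multibrotSet n) {J : ℕ}
    (h0 : ∀ j < J, orb n c c j ≠ 0) {ε : ℝ} (hε0 : 0 ≤ ε)
    (hmass : ∫⁻ w in closedBall (0 : ℂ) 3, ‖er n c J w‖ₑ ≤ ENNReal.ofReal ε) {k : ℕ} (hk : 1 ≤ k)
    {w : ℂ} {s : ℝ} (hs : 0 < s)
    (hA : ∀ x ∈ ball w s, x ∈ UU n c (k - 1) ∧ x ∉ UU n c (k + 1)) :
    ‖qd n c J w‖ ≤ 2 * ε / s ^ 2 := by
  have hz : ∀ j < J, s ≤ ‖orb n c c j - w‖ := by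
    intro j _
    by_contra hcon
    push Not at hcon
    have h1 : orb n c c j ∈ ball w s := by rwa [mem_ball, dist_eq_norm]
    exact (hA _ h1).2 (UU_mem hn hc j (k + 1))
  have h1 := hole J (fun j => orb n c c j) (fun j => (P n c c j)⁻¹) w (s := s) (δ := 1)
    (B := 2 / s) hs one_pos hz X (by simp) (by
      intro u hu
      rw [eval_X]
      simpa using hu)
  have h2 := hole_mass0 hn hc h0 hε0 hmass (k := k) (m := 1) hk hA
  have h3 : ENNReal.ofReal (Real.pi * s *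
      ‖∑ j ∈ Finset.range J, (P n c c j)⁻¹ * (X : ℂ[X]).eval (((1 : ℝ) : ℂ) / (orb n c c j - w))‖) ≤
      ENNReal.ofReal (2 / s * (((1 : ℕ) + 1) * ε)) := by
    rw [ENNReal.ofReal_mul (show (0 : ℝ) ≤ 2 / s by positivity)]
    refine h1.trans ?_
    gcongr
    exact h2
  rw [ENNReal.ofReal_le_ofReal_iff (by positivity)] at h3
  have e : ∑ j ∈ Finset.range J, (P n c c j)⁻¹ *
      (X : ℂ[X]).eval (((1 : ℝ) : ℂ) / (orb n c c j - w)) = -qd n c J w := by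
    unfold qd
    rw [← Finset.sum_neg_distrib]
    refine Finset.sum_congr rfl fun j _ => ?_
    rw [eval_X, Complex.ofReal_one, mul_one_div, ← neg_sub w, div_neg]
  rw [e, norm_neg] at h3
  have h4 : 2 * s * ‖qd n c J w‖ ≤ Real.pi * s * ‖qd n c J w‖ := by
    have := Real.pi_gt_three
    gcongr
    linarith
  rw [le_div_iff₀ (by positivity)]
  push_cast at h3
  have h5 : 2 * s * ‖qd n c J w‖ ≤ 2 / s * ((1 + 1) * ε) := h4.trans h3
  have h6 : 2 / s * ((1 + 1) * ε) = 4 * ε / s := by ring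
  rw [h6, le_div_iff₀ hs] at h5
  nlinarith

end Pool.Agent.T2H09.LV
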