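import Pool.Agent.T2H09.LV.MB0
import Pool.Agent.H548R3.MB.Eff2

/-!
# The mass of the error term: discs without centres of small period
-/

set_option autoImplicit false
open Set Filter Topology Metric MeasureTheory
open scoped ENNReal

namespace Pool.Agent.T2H09.LV

open Pool.Agent.W746.LD Pool.Agent.T2H09.DH Pool.Agent.T2H09.LU N62a1eb23

lemma er_fst0 {n : ℕ} {c : ℂ} (N : ℕ) (ho : ∀ j, ‖orb n c c j‖ ≤ 2) :
    ∫⁻ w in closedBall (0 : ℂ) 3, ‖er n c N w‖ₑ ≤
      ENNReal.ofReal (2 * Real.pi * 6 * (‖(P n c c N)⁻¹‖ + ‖S n c c (N + 1)‖)) := by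
  have hX : ∀ j, ‖orb n c c j‖ + 3 < (6 : ℝ) := fun j => by have := ho j; linarith
  have hc : ‖c‖ + 3 < (6 : ℝ) := by have := hX 0; rwa [orb_zero] at this
  calc ∫⁻ w in closedBall (0 : ℂ) 3, ‖er n c N w‖ₑ
      ≤ ∫⁻ w in closedBall (0 : ℂ) 3,
          (‖(P n c c N)⁻¹ / (w - orb n c c N)‖ₑ + ‖S n c c (N + 1) / (w - c)‖ₑ) := by
        apply lintegral_mono
        intro w
        unfold er
        exact enorm_sub_le
    _ = (∫⁻ w in closedBall (0 : ℂ) 3, ‖(P n c c N)⁻¹ / (w - orb n c c N)‖ₑ) +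
        ∫⁻ w in closedBall (0 : ℂ) 3, ‖S n c c (N + 1) / (w - c)‖ₑ := by
        apply lintegral_add_left
        exact (measurable_const.div (measurable_id.sub_const _)).enorm
    _ ≤ ENNReal.ofReal (2 * Real.pi * 6 * ‖(P n c c N)⁻¹‖) +
        ENNReal.ofReal (2 * Real.pi * 6 * ‖S n c c (N + 1)‖) :=
        add_le_add (int_term_le _ _ (hX N)) (int_term_le _ _ hc)
    _ = _ := by
        rw [← ENNReal.ofReal_add (by positivity) (by positivity)]
        congr 1
        ring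

lemma er_snd0 {n : ℕ} {c : ℂ} (N : ℕ) (ho : ∀ j, ‖orb n c c j‖ ≤ 2)
    (hne : orb n c c N ≠ c) :
    ∫⁻ w in closedBall (0 : ℂ) 3, ‖er n c N w‖ₑ ≤
      ENNReal.ofReal (‖(P n c c N)⁻¹‖ * (2 * Real.pi * (‖orb n c c N - c‖ *
        (2 + Real.log (12 / ‖orb n c c N - c‖)))) + 2 * Real.pi * 6 * ‖S n c c N‖) := by
  have hc2 : ‖c‖ ≤ 2 := by have := ho 0; rwa [orb_zero] at this
  have hρ : 0 < ‖orb n c c N - c‖ := norm_pos_iff.mpr (sub_ne_zero.mpr hne)
  have hρ4 : ‖orb n c c N - c‖ ≤ 4 := by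
    refine (norm_sub_le _ _).trans ?_
    have := ho N
    linarith
  have hlog : 0 ≤ Real.log (12 / ‖orb n c c N - c‖) := by
    apply Real.log_nonneg
    rw [le_div_iff₀ hρ]
    linarith
  calc ∫⁻ w in closedBall (0 : ℂ) 3, ‖er n c N w‖ₑ
      ≤ ∫⁻ w in closedBall (0 : ℂ) 3,
          (‖(P n c c N)⁻¹‖ₑ * ‖1 / (w - orb n c c N) - 1 / (w - c)‖ₑ +
            ‖S n c c N / (w - c)‖ₑ) := by
        apply lintegral_mono
        intro w
        have e : er n c N w = (P n c c N)⁻¹ * (1 / (w - orb n c c N) - 1 / (w - c)) -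
            S n c c N / (w - c) := by
          unfold er
          rw [S_succ]
          ring
        simp only
        rw [e, ← enorm_mul]
        exact enorm_sub_le
    _ = (∫⁻ w in closedBall (0 : ℂ) 3,
          ‖(P n c c N)⁻¹‖ₑ * ‖1 / (w - orb n c c N) - 1 / (w - c)‖ₑ) +
        ∫⁻ w in closedBall (0 : ℂ) 3, ‖S n c c N / (w - c)‖ₑ := by
        apply lintegral_add_right
        exact (measurable_const.div (measurable_id.sub_const _)).enorm
    _ = ‖(P n c c N)⁻¹‖ₑ * (∫⁻ w in closedBall (0 : ℂ) 3,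
          ‖1 / (w - orb n c c N) - 1 / (w - c)‖ₑ) +
        ∫⁻ w in closedBall (0 : ℂ) 3, ‖S n c c N / (w - c)‖ₑ := by
        rw [lintegral_const_mul' _ _ enorm_ne_top]
    _ ≤ ‖(P n c c N)⁻¹‖ₑ * ENNReal.ofReal (2 * Real.pi * (‖orb n c c N - c‖ *
          (2 + Real.log (12 / ‖orb n c c N - c‖)))) +
        ENNReal.ofReal (2 * Real.pi * 6 * ‖S n c c N‖) := by
        gcongr
        · exact two_poles (ho N) hc2 hne
        · exact int_term_le _ _ (by linarith)
    _ = _ := by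
        rw [← ofReal_norm, ← ENNReal.ofReal_mul (norm_nonneg _),
          ← ENNReal.ofReal_add (by positivity) (by positivity)]


/-- The critical orbits in a disc without centres of small period. -/
theorem disc_orb {n : ℕ} (hn : 2 ≤ n) {c : ℂ} (hc : c ∈ multibrotSet n) {N : ℕ} {r : ℝ}
    (hr : 0 < r) (hno : ∀ t ∈ ball c r, ¬ Pool.Agent.H548R3.MB.Centre n (N + 2) t) {t : ℂ}
    (ht : ‖t - c‖ ≤ r / 4) {j : ℕ} (hj : j ≤ N) :
    ‖orb n t t j‖ ≤ Pool.Agent.H548R3.MB.MM n 1 := by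
  have hr' : (r : ℂ) ≠ 0 := by exact_mod_cast hr.ne'
  have key := Pool.Agent.H548R3.MB.disc_bd hn (J := N) (γ := fun s : ℂ => c + r * s)
    (by fun_prop) (by simpa using hc)
    (by
      intro s hs
      apply hno
      rw [mem_ball_zero_iff] at hs
      rw [mem_ball, dist_eq_norm, add_sub_cancel_left, norm_mul, Complex.norm_real,
        Real.norm_eq_abs, abs_of_pos hr]
      nlinarith) 1 ((t - c) / r)
    (by
      rw [norm_div, Complex.norm_real, Real.norm_eq_abs, abs_of_pos hr, div_le_iff₀ hr]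
      linarith) (j + 1) (by omega) (by omega)
  have e : c + (r : ℂ) * ((t - c) / r) = t := by field_simp; ring
  rw [e, P_eq_orb hn] at key
  exact key

/-- The mass of the error term with constant `E / r`. -/
theorem er_massV {n : ℕ} (hn : 2 ≤ n) :
    ∃ E : ℝ, 1 ≤ E ∧ ∀ c ∈ multibrotSet n, ∀ (M : ℕ) (r : ℝ), 0 < r → r ≤ 1 →
      (∀ t ∈ ball c r, ¬ Pool.Agent.H548R3.MB.Centre n (M + 2) t) → ∀ N : ℕ, 1 ≤ N → N ≤ M →
      ∫⁻ w in closedBall (0 : ℂ) 3, ‖er n c N w‖ₑ ≤ ENNReal.ofReal (ep n c (E / r) N) := by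
  have hπ := Real.pi_pos
  obtain ⟨B, hB⟩ : ∃ B, B = Pool.Agent.H548R3.MB.MM n 1 + 2 := ⟨_, rfl⟩
  have hMM := Pool.Agent.H548R3.MB.one_le_MM n 1
  have hB1 : 1 ≤ B := by linarith
  have hB0 : 0 < B := by linarith
  have hlB : 0 ≤ Real.log (2 * B) := Real.log_nonneg (by linarith)
  obtain ⟨K1, hK1⟩ : ∃ K1, K1 = 1 + Real.log (2 * B) / 3 := ⟨_, rfl⟩
  have hK10 : 1 ≤ K1 := by rw [hK1]; have : 0 ≤ Real.log (2 * B) / 3 := by positivity
                           linarith
  refine ⟨12 * Real.pi * (1 + 8 * B + 8 * K1), ?_, ?_⟩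
  · have := Real.pi_gt_three
    nlinarith
  intro c hc M r hr hr1 hno N hN hNM
  have ho := mem_multibrot_orb hn hc
  have horne : ∀ t ∈ ball c r, ∀ j ≤ M, orb n t t j ≠ 0 := by
    intro t ht j hj h0
    apply hno t ht
    refine ⟨j + 1, by omega, by omega, ?_⟩
    have := P_eq_orb hn j t
    rw [h0] at this
    exact this
  have hcb : c ∈ ball c r := mem_ball_self hr
  have hor : ∀ j ≤ M, orb n c c j ≠ 0 := horne c hcb
  have hP : ∀ j ≤ M, P n c c j ≠ 0 := fun j hj => P_ne_zero hn fun i hi => hor i (by omega)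
  have hbd : ∀ t : ℂ, ‖t - c‖ ≤ r / 4 → ∀ j ≤ M, ‖orb n t t j‖ ≤ B := by
    intro t ht j hj
    have := disc_orb hn hc hr hno ht hj
    linarith
  obtain ⟨k, rfl⟩ : ∃ k, N = k + 1 := ⟨N - 1, by omega⟩
  have hρeq : ‖orb n c c (k + 1) - c‖ = ‖orb n c c k‖ ^ n := norm_orb_succ_sub c k
  have hρ : 0 < ‖orb n c c (k + 1) - c‖ := by
    rw [hρeq]
    exact pow_pos (norm_pos_iff.mpr (hor k (by omega))) n
  have hne : orb n c c (k + 1) ≠ c := sub_ne_zero.mp (norm_pos_iff.mp hρ)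
  have hD : r / 8 * ‖TH363.QI.D n c (k + 1)‖ ≤ B := by
    have h1 := Complex.norm_deriv_le_of_forall_mem_sphere_norm_le (f := fun t => orb n t t (k + 1))
      (c := c) (C := B) (by positivity : 0 < r / 8)
      (Differentiable.diffContOnCl (diff_param (n := n) (k + 1)))
      (by
        intro t ht
        rw [mem_sphere, dist_eq_norm] at ht
        exact hbd t (by linarith) (k + 1) hNM)
    rw [(TH363.QI.hasDerivAt_D n c (k + 1)).deriv, le_div_iff₀ (by positivity)] at h1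
    linarith
  have hnv : r / 4 * (‖P n c c (k + 1)‖ * ‖S n c c (k + 1)‖) ≤
      2 * ‖orb n c c (k + 1) - c‖ * Real.log (2 * B / ‖orb n c c (k + 1) - c‖) := by
    have hsub : ball c (r / 4) ⊆ ball c r := ball_subset_ball (by linarith)
    have hne' : ∀ t ∈ ball c (r / 4), orb n t t (k + 1) - t ≠ 0 := by
      intro t ht h0
      rw [orb_succ, add_sub_cancel_right] at h0
      exact horne t (hsub ht) k (by omega) (pow_eq_zero_iff (by omega) |>.mp h0)
    have hbd' : ∀ t ∈ ball c (r / 4), ‖orb n t t (k + 1) - t‖ ≤ 2 * B := by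
      intro t ht
      have ht' : ‖t - c‖ ≤ r / 4 := by rw [mem_ball, dist_eq_norm] at ht; exact ht.le
      have h1 := hbd t ht' (k + 1) hNM
      have h2 := hbd t ht' 0 (by omega)
      rw [orb_zero] at h2
      have h3 := norm_sub_le (orb n t t (k + 1)) t
      linarith
    have hd : DifferentiableOn ℂ (fun t => orb n t t (k + 1) - t) (ball c (r / 4)) :=
      ((diff_param (n := n) (k + 1)).sub differentiable_id).differentiableOn
    have hPk := hP (k + 1) hNM
    have hder : deriv (fun t => orb n t t (k + 1) - t) c = P n c c (k + 1) * S n c c (k + 1) := by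
      have h1 : HasDerivAt (fun t => orb n t t (k + 1) - t) (TH363.QI.D n c (k + 1) - 1) c :=
        (TH363.QI.hasDerivAt_D n c (k + 1)).sub (hasDerivAt_id c)
      rw [h1.deriv, D_eq' _ hPk, S_succ, mul_add, mul_inv_cancel₀ hPk]
      ring
    have h1 := nv (by positivity : 0 < r / 4) hd hne' hbd'
    rw [hder, norm_mul] at h1
    exact h1
  have h1 := er_fst0 (n := n) (c := c) (k + 1) ho
  have h2 := er_snd0 (n := n) (c := c) (k + 1) ho hne
  rw [D_eq' _ (hP _ hNM), norm_mul] at hD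
  have hPp : 0 < ‖P n c c (k + 1)‖ := norm_pos_iff.mpr (hP _ hNM)
  set ρ := ‖orb n c c (k + 1) - c‖ with hρd
  set s := ‖S n c c (k + 1)‖ with hs
  set s' := ‖S n c c (k + 1 + 1)‖ with hs'
  have hp : ‖(P n c c (k + 1))⁻¹‖ = ‖P n c c (k + 1)‖⁻¹ := norm_inv _
  unfold ep
  rw [← hρd]
  rw [hp] at h1 h2 ⊢
  set p := ‖P n c c (k + 1)‖ with hpd
  have hs'b : s' ≤ 8 * B / r * p⁻¹ := by
    rw [← div_eq_mul_inv, le_div_iff₀ hPp, le_div_iff₀ hr]
    linarith
  have hsb : s ≤ 8 / r * p⁻¹ * (ρ * Real.log (2 * B / ρ)) := by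
    have e : 8 / r * p⁻¹ * (ρ * Real.log (2 * B / ρ)) =
        8 * ρ * Real.log (2 * B / ρ) / (r * p) := by
      field_simp
    rw [e, le_div_iff₀ (by positivity)]
    linarith
  have hl12 : Real.log (12 / ρ) = Real.log 12 - Real.log ρ := Real.log_div (by norm_num) hρ.ne'
  have hlB' : Real.log (2 * B / ρ) = Real.log (2 * B) - Real.log ρ :=
    Real.log_div (by positivity) hρ.ne'
  have hlog12 : Real.log 12 ≤ 3 := by
    rw [Real.log_le_iff_le_exp (by norm_num)]
    have := Real.exp_one_gt_d9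
    calc (12 : ℝ) ≤ 2.7182818283 ^ 3 := by norm_num
      _ ≤ Real.exp 1 ^ 3 := by gcongr
      _ = Real.exp 3 := by rw [← Real.exp_nat_mul]; norm_num
  have hρ3 : 3 ≤ 5 - Real.log ρ := by
    have h4 : ρ ≤ 4 := by
      refine (norm_sub_le _ _).trans ?_
      have := ho (k + 1)
      have h0 : ‖c‖ ≤ 2 := by have := ho 0; rwa [orb_zero] at this
      linarith
    have h5 : Real.log ρ ≤ Real.log 4 := Real.log_le_log hρ h4
    have h6 : Real.log 4 ≤ 2 := by
      rw [show (4 : ℝ) = 2 ^ 2 by norm_num, Real.log_pow]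
      have := Real.log_le_sub_one_of_pos (show (0 : ℝ) < 2 by norm_num)
      push_cast
      linarith
    linarith
  have hr' : 1 ≤ 1 / r := by rw [le_div_iff₀ hr]; linarith
  rcases min_choice 1 (ρ * (5 - Real.log ρ)) with hm | hm <;> rw [hm]
  · refine h1.trans (ENNReal.ofReal_le_ofReal ?_)
    have hinv : 0 < p⁻¹ := inv_pos.mpr hPp
    calc 2 * Real.pi * 6 * (p⁻¹ + s') ≤ 2 * Real.pi * 6 * (1 * p⁻¹ + 8 * B / r * p⁻¹) := by
          rw [one_mul]; gcongr
      _ ≤ 2 * Real.pi * 6 * (1 / r * p⁻¹ + 8 * B / r * p⁻¹) := by gcongr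
      _ = 12 * Real.pi * (1 + 8 * B) / r * p⁻¹ * 1 := by ring
      _ ≤ 12 * Real.pi * (1 + 8 * B + 8 * K1) / r * p⁻¹ * 1 := by
          have hx : 12 * Real.pi * (1 + 8 * B) / r ≤ 12 * Real.pi * (1 + 8 * B + 8 * K1) / r := by
            apply div_le_div_of_nonneg_right _ hr.le
            nlinarith
          gcongr
  · refine h2.trans (ENNReal.ofReal_le_ofReal ?_)
    have hL : 0 < p⁻¹ := inv_pos.mpr hPp
    set t := ρ * (5 - Real.log ρ) with ht
    have ht0 : 0 ≤ t := by rw [ht]; apply mul_nonneg hρ.le; linarith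
    have a1 : ρ * (2 + Real.log (12 / ρ)) ≤ t := by
      rw [ht]
      gcongr
      linarith
    have a2 : ρ * Real.log (2 * B / ρ) ≤ K1 * t := by
      have h3 : Real.log (2 * B / ρ) ≤ K1 * (5 - Real.log ρ) := by
        rw [hlB', hK1, add_mul, one_mul]
        have h4 : Real.log (2 * B) ≤ Real.log (2 * B) / 3 * (5 - Real.log ρ) := by
          have : Real.log (2 * B) / 3 * 3 ≤ Real.log (2 * B) / 3 * (5 - Real.log ρ) := by gcongr
          linarith
        linarith
      calc ρ * Real.log (2 * B / ρ) ≤ ρ * (K1 * (5 - Real.log ρ)) := by gcongr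
        _ = K1 * t := by rw [ht]; ring
    calc p⁻¹ * (2 * Real.pi * (ρ * (2 + Real.log (12 / ρ)))) + 2 * Real.pi * 6 * s
        ≤ p⁻¹ * (2 * Real.pi * t) + 2 * Real.pi * 6 * (8 / r * p⁻¹ * (K1 * t)) := by
          gcongr
          exact hsb.trans (by gcongr)
      _ = 2 * Real.pi * 1 * p⁻¹ * t + 12 * Real.pi * (8 * K1) / r * p⁻¹ * t := by ring
      _ ≤ 12 * Real.pi * (1 / r) * p⁻¹ * t + 12 * Real.pi * (8 * K1) / r * p⁻¹ * t := by
          gcongr
          norm_num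
      _ = 12 * Real.pi * (1 + 8 * K1) / r * p⁻¹ * t := by ring
      _ ≤ 12 * Real.pi * (1 + 8 * B + 8 * K1) / r * p⁻¹ * t := by
          gcongr
          linarith

end Pool.Agent.T2H09.LV
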