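import Pool.Agent.T2H09.LV.Quasi
import Pool.Agent.T2H09.LV.MA0
import Pool.Agent.T2H09.LU.Str

/-!
# Quasi-polynomial growth of the derivatives and nearby attracting cycles
-/

set_option autoImplicit false
open Set Filter Topology Metric MeasureTheory
open scoped ENNReal

namespace Pool.Agent.T2H09.LV

open Pool.Agent.W746.LD Pool.Agent.T2H09.DH Pool.Agent.T2H09.LU N62a1eb23

/-- The choice of the number of holes. -/
theorem num {n : ℕ} (hn : 2 ≤ n) {L : ℝ} (hL : 0 ≤ L) : ∃ A : ℝ, 0 < A ∧ ∀ M : ℕ, 2 ≤ M →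
    ∀ h : ℝ, h = 1 / (8 * (3 ^ n + 2)) * (1 / M) → ∃ q : ℕ,
      (1 - om (h / 2)) ^ q * (1 + lW n M) ≤ 1 / 2 ∧
      Real.log (12 / h ^ 2) + Real.log 8 + q * (L + 4) + 1 +
        (Real.log (5 + Real.log (2 * n)) + Real.log M) + Real.log M + 4 ≤ A * Real.log M ^ 2 := by
  have hn1 : (1 : ℝ) ≤ n := by exact_mod_cast (by omega : 1 ≤ n)
  obtain ⟨l2, hl2⟩ : ∃ l2, l2 = Real.log 2 := ⟨_, rfl⟩
  obtain ⟨ln, hln⟩ : ∃ ln, ln = Real.log (2 * n) := ⟨_, rfl⟩
  obtain ⟨H, hH⟩ : ∃ H : ℝ, H = 8 * (3 ^ n + 2) := ⟨_, rfl⟩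
  have hl20 : 0 < l2 := by rw [hl2]; exact Real.log_pos (by norm_num)
  have hln0 : 0 ≤ ln := by rw [hln]; exact Real.log_nonneg (by linarith)
  have h3n : (1 : ℝ) ≤ 3 ^ n := one_le_pow₀ (by norm_num)
  have hH1 : 1 ≤ H := by rw [hH]; linarith
  have hH0 : 0 < H := by linarith
  have hlH : 0 ≤ Real.log H := Real.log_nonneg hH1
  have hlog6 : 0 ≤ Real.log (6 * H) := Real.log_nonneg (by linarith)
  have hlog22 : 0 ≤ Real.log (2 * (2 + ln)) := Real.log_nonneg (by linarith)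
  have hlog12 : 0 ≤ Real.log 12 := Real.log_nonneg (by norm_num)
  have hlog8 : 0 ≤ Real.log 8 := Real.log_nonneg (by norm_num)
  have hlog5 : 0 ≤ Real.log (5 + ln) := Real.log_nonneg (by linarith)
  have h32 : 0 < Real.log (3 / 2) := Real.log_pos (by norm_num)
  obtain ⟨A1, hA1⟩ : ∃ A1, A1 = Real.log (6 * H) / l2 + 1 := ⟨_, rfl⟩
  obtain ⟨A2, hA2⟩ : ∃ A2, A2 = Real.log (2 * (2 + ln)) / l2 + 1 := ⟨_, rfl⟩
  obtain ⟨A3, hA3⟩ : ∃ A3, A3 = A2 * A1 / Real.log (3 / 2) + 1 / l2 ^ 2 := ⟨_, rfl⟩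
  have hA10 : 0 < A1 := by rw [hA1]; positivity
  have hA20 : 0 < A2 := by rw [hA2]; positivity
  have hA30 : 0 < A3 := by rw [hA3]; positivity
  refine ⟨(Real.log 12 + 2 * Real.log H + Real.log 8 + Real.log (5 + ln) + 5) / l2 ^ 2 + 4 / l2 +
    A3 * (L + 4), by positivity, ?_⟩
  intro M hM h hh
  have hM2 : (2 : ℝ) ≤ M := by exact_mod_cast hM
  have hM0 : (0 : ℝ) < M := by linarith
  obtain ⟨l, hl⟩ : ∃ l, l = Real.log M := ⟨_, rfl⟩
  have hll : l2 ≤ l := by rw [hl, hl2]; exact Real.log_le_log (by norm_num) hM2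
  have hl0 : 0 < l := by linarith
  have hlM : l ≤ M := by
    rw [hl]
    have := Real.log_le_sub_one_of_pos hM0
    linarith
  have c1 : ∀ x : ℝ, 0 ≤ x → x ≤ x / l2 * l := by
    intro x hx
    rw [div_mul_eq_mul_div, le_div_iff₀ hl20]
    gcongr
  have c2 : ∀ x : ℝ, 0 ≤ x → x * l ≤ x / l2 * l ^ 2 := by
    intro x hx
    calc x * l ≤ x / l2 * l * l := by gcongr; exact c1 x hx
      _ = _ := by ring
  have c3 : ∀ x : ℝ, 0 ≤ x → x ≤ x / l2 ^ 2 * l ^ 2 := by
    intro x hx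
    calc x ≤ x / l2 * l := c1 x hx
      _ ≤ x / l2 / l2 * l ^ 2 := c2 _ (by positivity)
      _ = _ := by field_simp
  have hhH : h = 1 / (H * M) := by
    rw [hh, ← hH]
    field_simp
  have hh0 : 0 < h := by rw [hhH]; positivity
  have hlh : Real.log (12 / h ^ 2) = Real.log 12 + 2 * Real.log H + 2 * l := by
    have e : 12 / h ^ 2 = 12 * (H * M) ^ 2 := by rw [hhH]; field_simp
    rw [e, Real.log_mul (by norm_num) (by positivity), Real.log_pow,
      Real.log_mul hH0.ne' hM0.ne', ← hl]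
    push_cast
    ring
  have hω : om (h / 2) = Real.log (3 / 2) / (Real.log (6 * H) + l) := by
    unfold om
    have e : 3 / (h / 2) = 6 * H * M := by
      rw [hhH]
      field_simp
      norm_num
    rw [e, Real.log_mul (by positivity) hM0.ne', ← hl]
  have hω0 : 0 < om (h / 2) := by rw [hω]; positivity
  have hh1 : h ≤ 1 := by
    rw [hhH, div_le_one (by positivity)]
    nlinarith
  have hω1 : om (h / 2) ≤ 1 := om_le (by positivity) (by linarith)
  have hlW : 1 + lW n M ≤ (2 + ln) * M := by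
    have e : lW n M = l + M * ln := by
      unfold lW
      rw [Real.log_mul hM0.ne' (by positivity), Real.log_pow, ← hl, ← hln]
    rw [e]
    linarith
  have hlW0 : 0 < 1 + lW n M := by
    have e : lW n M = l + M * ln := by
      unfold lW
      rw [Real.log_mul hM0.ne' (by positivity), Real.log_pow, ← hl, ← hln]
    rw [e]
    positivity
  obtain ⟨Z, hZ⟩ : ∃ Z, Z = Real.log (2 * (1 + lW n M)) := ⟨_, rfl⟩
  have hZle : Z ≤ A2 * l := by
    have h1 : Z ≤ Real.log (2 * (2 + ln)) + l := by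
      rw [hZ, hl, ← Real.log_mul (by positivity) hM0.ne']
      apply Real.log_le_log (by positivity)
      linarith
    have h2 := c1 _ hlog22
    rw [hA2, add_mul, one_mul]
    linarith
  refine ⟨⌈Z / om (h / 2)⌉₊, ?_, ?_⟩
  · have h1 : Z / om (h / 2) ≤ (⌈Z / om (h / 2)⌉₊ : ℝ) := Nat.le_ceil _
    set q : ℕ := ⌈Z / om (h / 2)⌉₊ with hq
    have h2 : (1 - om (h / 2)) ^ q ≤ Real.exp (-Z) := by
      have h3 : 1 - om (h / 2) ≤ Real.exp (-om (h / 2)) := by
        have := Real.add_one_le_exp (-om (h / 2))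
        linarith
      calc (1 - om (h / 2)) ^ q ≤ Real.exp (-om (h / 2)) ^ q := by
            apply pow_le_pow_left₀ _ h3
            linarith
        _ = Real.exp (q * -om (h / 2)) := by rw [Real.exp_nat_mul]
        _ ≤ Real.exp (-Z) := by
            apply Real.exp_le_exp.mpr
            rw [div_le_iff₀ hω0] at h1
            linarith
    have h3 : Real.exp (-Z) = 1 / (2 * (1 + lW n M)) := by
      rw [hZ, Real.exp_neg, Real.exp_log (by positivity), one_div]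
    calc (1 - om (h / 2)) ^ q * (1 + lW n M) ≤ 1 / (2 * (1 + lW n M)) * (1 + lW n M) := by
          rw [← h3]
          gcongr
      _ = 1 / 2 := by field_simp
  · rw [← hl, ← hln, hlh]
    have h1 : (⌈Z / om (h / 2)⌉₊ : ℝ) ≤ A3 * l ^ 2 := by
      have hA1l : Real.log (6 * H) + l ≤ A1 * l := by
        have := c1 _ hlog6
        rw [hA1, add_mul, one_mul]
        linarith
      rcases le_or_gt 0 Z with hZ0 | hZ0
      · have h2 : (⌈Z / om (h / 2)⌉₊ : ℝ) ≤ Z / om (h / 2) + 1 :=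
          (Nat.ceil_lt_add_one (by positivity)).le
        have h3 : Z / om (h / 2) ≤ A2 * A1 / Real.log (3 / 2) * l ^ 2 := by
          rw [hω, div_div_eq_mul_div]
          calc Z * (Real.log (6 * H) + l) / Real.log (3 / 2)
              ≤ (A2 * l) * (A1 * l) / Real.log (3 / 2) := by gcongr
            _ = _ := by ring
        have h4 := c3 1 (by norm_num)
        rw [hA3, add_mul]
        linarith
      · have h2 : ⌈Z / om (h / 2)⌉₊ = 0 := by
          rw [Nat.ceil_eq_zero]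
          exact div_nonpos_of_nonpos_of_nonneg hZ0.le hω0.le
        rw [h2, Nat.cast_zero]
        positivity
    have h2 : (⌈Z / om (h / 2)⌉₊ : ℝ) * (L + 4) ≤ A3 * l ^ 2 * (L + 4) := by gcongr
    have h3 := c3 (Real.log 12 + 2 * Real.log H + Real.log 8 + Real.log (5 + ln) + 5)
      (by positivity)
    have h4 := c2 4 (by norm_num)
    have e : ((Real.log 12 + 2 * Real.log H + Real.log 8 + Real.log (5 + ln) + 5) / l2 ^ 2 +
        4 / l2 + A3 * (L + 4)) * l ^ 2 =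
        (Real.log 12 + 2 * Real.log H + Real.log 8 + Real.log (5 + ln) + 5) / l2 ^ 2 * l ^ 2 +
        4 / l2 * l ^ 2 + A3 * l ^ 2 * (L + 4) := by ring
    rw [e]
    linarith

/-- Large derivatives at the critical value give nearby parameters with an attracting cycle of
small period. -/
theorem quasiV {n : ℕ} (hn : 2 ≤ n) : ∃ C ε : ℝ, 0 < C ∧ 0 < ε ∧ ∀ c ∈ multibrotSet n,
    ∀ N : ℕ, 2 ≤ N → C * Real.log N ^ 3 ≤ Real.log ‖P n c c N‖ →
    ∃ c' : ℂ, ‖c' - c‖ ≤ Real.exp (-(ε * Real.log ‖P n c c N‖ / Real.log N)) ∧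
      ∃ p ≤ N + 2, ∃ z, IsAttractingCycle (fun z => z ^ n + c') p z := by
  have hn1 : (1 : ℝ) ≤ n := by exact_mod_cast (by omega : 1 ≤ n)
  obtain ⟨E, hE1, hmassE⟩ := er_massV hn
  have hE0 : 0 < E := by linarith
  have hlE : 0 ≤ Real.log E := Real.log_nonneg hE1
  have h3n : (1 : ℝ) ≤ 3 ^ n := one_le_pow₀ (by norm_num)
  obtain ⟨L, hL⟩ : ∃ L, L = Real.log (3 ^ n + 4) := ⟨_, rfl⟩
  have hL0 : 0 ≤ L := by rw [hL]; exact Real.log_nonneg (by linarith)
  obtain ⟨A, hA0, hA⟩ := num hn hL0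
  obtain ⟨l2, hl2⟩ : ∃ l2, l2 = Real.log 2 := ⟨_, rfl⟩
  have hl20 : 0 < l2 := by rw [hl2]; exact Real.log_pos (by norm_num)
  obtain ⟨A5, hA5⟩ : ∃ A5, A5 = A + Real.log E / l2 ^ 2 := ⟨_, rfl⟩
  have hA50 : 0 < A5 := by rw [hA5]; positivity
  obtain ⟨A6, hA6⟩ : ∃ A6, A6 = 5 / l2 := ⟨_, rfl⟩
  have hA60 : 0 < A6 := by rw [hA6]; positivity
  refine ⟨2 * A6 * A5, 1 / (2 * A6), by positivity, by positivity, ?_⟩
  intro c hc M hM hyp
  obtain ⟨ε, hε⟩ : ∃ ε, ε = 1 / (2 * A6) := ⟨_, rfl⟩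
  rw [← hε]
  have hε0 : 0 < ε := by rw [hε]; positivity
  have hM2 : (2 : ℝ) ≤ M := by exact_mod_cast hM
  have hM0 : (0 : ℝ) < M := by linarith
  obtain ⟨l, hl⟩ : ∃ l, l = Real.log M := ⟨_, rfl⟩
  have hll : l2 ≤ l := by rw [hl, hl2]; exact Real.log_le_log (by norm_num) hM2
  have hl0 : 0 < l := by linarith
  rw [← hl] at hyp ⊢
  obtain ⟨a, ha⟩ : ∃ a, a = Real.log ‖P n c c M‖ := ⟨_, rfl⟩
  rw [← ha] at hyp ⊢
  have ha0 : 0 < a := lt_of_lt_of_le (by positivity) hyp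
  have hP1 : 1 ≤ ‖P n c c M‖ := by
    by_contra hlt
    push Not at hlt
    have h1 : Real.log ‖P n c c M‖ ≤ 0 := Real.log_nonpos (norm_nonneg _) hlt.le
    linarith
  obtain ⟨r, hr⟩ : ∃ r, r = Real.exp (-(ε * a / l)) := ⟨_, rfl⟩
  rw [← hr]
  have hr0 : 0 < r := by rw [hr]; exact Real.exp_pos _
  have hr1 : r ≤ 1 := by
    rw [hr, Real.exp_le_one_iff]
    have : 0 ≤ ε * a / l := by positivity
    linarith
  by_contra hcon
  push Not at hcon
  have hcb : c ∈ ball c r := mem_ball_self hr0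
  have hatt : ∀ t ∈ ball c r, ∀ p ≤ M + 2, ∀ z, ¬ IsAttractingCycle (fun z => z ^ n + t) p z := by
    intro t ht
    rw [mem_ball, dist_eq_norm] at ht
    exact hcon t ht.le
  have hno : ∀ t ∈ ball c r, ¬ Pool.Agent.H548R3.MB.Centre n (M + 2) t := by
    rintro t ht ⟨p, hp1, hp2, hp3⟩
    exact hatt t ht p hp2 0 (Pool.Agent.H548R3.MB.att_of_centre hn hp1 hp3)
  have h0 : ∀ j < M, orb n c c j ≠ 0 := by
    intro j hj h0
    apply hno c hcb
    refine ⟨j + 1, by omega, by omega, ?_⟩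
    have := P_eq_orb hn j c
    rw [h0] at this
    exact this
  obtain ⟨h, hh⟩ : ∃ h : ℝ, h = 1 / (8 * (3 ^ n + 2)) * (1 / M) := ⟨_, rfl⟩
  obtain ⟨q, hq1, hq2⟩ := hA M hM h hh
  rw [← hl] at hq2
  have haM : a ≤ M * Real.log (2 * n) := by
    have h1 := Real.log_le_log (by linarith) (P_le hn hc M)
    rw [Real.log_pow] at h1
    rw [ha]
    exact h1
  have hln0 : 0 ≤ Real.log (2 * n) := Real.log_nonneg (by linarith)
  have hlog5a : Real.log (5 + a) ≤ Real.log (5 + Real.log (2 * n)) + l := by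
    rw [hl, ← Real.log_mul (by positivity) hM0.ne']
    apply Real.log_le_log (by linarith)
    nlinarith
  have hEr : 1 ≤ E / r := by
    rw [le_div_iff₀ hr0]
    linarith
  have hlEr : Real.log (E / r) = Real.log E + ε * a / l := by
    rw [Real.log_div hE0.ne' hr0.ne', hr, Real.log_exp]
    ring
  have key := quasi hn hc (by omega) h0 hP1 hEr (hmassE c hc M r hr0 hr1 hno)
    (fun N _ hN z => hatt c hcb N (by omega) z) hL0
    (fun k => by
      unfold kap
      have h1 := Real.log_le_log (dl_pos hn hc k) (dl_step hn hc k)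
      rw [Real.log_mul (by positivity) (dl_pos hn hc (k + 1)).ne'] at h1
      linarith)
    hh hq1 (u := Real.log (E / r) + Real.log (12 / h ^ 2) + Real.log 8 + q * (L + 4) + 1 +
      Real.log (5 + aa n c M) + Real.log M + 4) le_rfl (l := Nat.log 2 M + 1)
    (Nat.lt_pow_succ_log_self (by norm_num) M)
  have haa : aa n c M = a := ha.symm
  rw [haa, hlEr, ← hl] at key
  obtain ⟨u, hu⟩ : ∃ u, u = Real.log E + ε * a / l + Real.log (12 / h ^ 2) + Real.log 8 +
    q * (L + 4) + 1 + Real.log (5 + a) + l + 4 := ⟨_, rfl⟩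
  rw [← hu] at key
  have hu1 : u ≤ A5 * l ^ 2 + ε * a / l := by
    have h1 : Real.log E ≤ Real.log E / l2 ^ 2 * l ^ 2 := by
      rw [div_mul_eq_mul_div, le_div_iff₀ (by positivity)]
      gcongr
    rw [hu, hA5, add_mul]
    linarith
  have hu2 : 0 ≤ A5 * l ^ 2 + ε * a / l := by positivity
  have hlog : ((Nat.log 2 M : ℕ) : ℝ) ≤ l / l2 := by
    rw [le_div_iff₀ hl20, hl2, hl, ← Real.log_pow]
    apply Real.log_le_log (by positivity)
    exact_mod_cast Nat.pow_log_le_self 2 (by omega)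
  have hcoef : 2 * ((Nat.log 2 M + 1 : ℕ) : ℝ) + 1 ≤ A6 * l := by
    have h1 : 1 ≤ l / l2 := by rw [le_div_iff₀ hl20]; linarith
    have e : A6 * l = 5 * (l / l2) := by rw [hA6]; ring
    rw [e]
    push_cast
    linarith
  have h5 : a < A6 * l * (A5 * l ^ 2 + ε * a / l) := by
    refine lt_of_lt_of_le key ?_
    calc (2 * ((Nat.log 2 M + 1 : ℕ) : ℝ) + 1) * u
        ≤ (2 * ((Nat.log 2 M + 1 : ℕ) : ℝ) + 1) * (A5 * l ^ 2 + ε * a / l) := by gcongr
      _ ≤ A6 * l * (A5 * l ^ 2 + ε * a / l) := by gcongr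
  have h6 : A6 * l * (A5 * l ^ 2 + ε * a / l) = A6 * A5 * l ^ 3 + a / 2 := by
    rw [hε]
    field_simp
  rw [h6] at h5
  linarith

end Pool.Agent.T2H09.LV
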