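import Pool.Agent.T2H09.LV.Est

/-!
# The main estimate
-/

set_option autoImplicit false
open Set Filter Topology Metric MeasureTheory Polynomial
open scoped ENNReal

namespace Pool.Agent.T2H09.LV

open Pool.Agent.W746.LD Pool.Agent.T2H09.DH Pool.Agent.T2H09.LU N62a1eb23

/-- The bound of the weights. -/
noncomputable def lW (n M : ℕ) : ℝ := Real.log (M * (2 * n) ^ M)

/-- The product of the quadratic differential with `w - c`. -/
noncomputable def gg (n : ℕ) (c : ℂ) (J' : ℕ) (w : ℂ) : ℂ :=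
  1 + (w - c) * ∑ i ∈ Finset.range J', (P n c c (i + 1))⁻¹ / (w - orb n c c (i + 1))

lemma gg_self (n : ℕ) (c : ℂ) (J' : ℕ) : gg n c J' c = 1 := by
  unfold gg
  rw [sub_self, zero_mul, add_zero]

lemma gg_eq (n : ℕ) {c w : ℂ} (J' : ℕ) (hw : w ≠ c) :
    gg n c J' w = (w - c) * qd n c (J' + 1) w := by
  unfold gg qd
  rw [Finset.sum_range_succ', mul_add, P_zero, orb_zero, inv_one, mul_one_div,
    div_self (sub_ne_zero.mpr hw)]
  ring

theorem main_est {n : ℕ} (hn : 2 ≤ n) {c : ℂ} (hc : c ∈ multibrotSet n) {M : ℕ}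
    (h0 : ∀ j < M, orb n c c j ≠ 0) (hP1 : 1 ≤ ‖P n c c M‖) {J : ℕ} (hJ1 : 1 ≤ J) (hJM : J ≤ M)
    {ε : ℝ} (hε : 0 < ε)
    (hmass : ∫⁻ w in closedBall (0 : ℂ) 3, ‖er n c J w‖ₑ ≤ ENNReal.ofReal ε)
    {L : ℝ} (hL0 : 0 ≤ L) (hL : ∀ k, kap n c (k + 1) ≤ kap n c k + L)
    {m : ℝ} (hm : 0 ≤ m) (hdeep : ∀ j, 1 ≤ j → j < J → kk n c j ≤ m)
    {h : ℝ} (hh : h = 1 / (8 * (3 ^ n + 2)) * (1 / M)) {q : ℕ}
    (hq : (1 - om (h / 2)) ^ q * (1 + lW n M) ≤ 1 / 2)
    (hx : m + Real.log 8 + q * (L + 4) ≤ aa n c M) :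
    -1 ≤ Real.log ε + Real.log (12 / h ^ 2) + (m + Real.log 8 + q * (L + 4)) := by
  have hM : 1 ≤ M := hJ1.trans hJM
  have hM1 : (1 : ℝ) ≤ M := by exact_mod_cast hM
  have hM0 : (0 : ℝ) < M := by linarith
  have hn1 : (1 : ℝ) ≤ n := by exact_mod_cast (by omega : 1 ≤ n)
  have h3n : (1 : ℝ) ≤ 3 ^ n := one_le_pow₀ (by norm_num)
  have hh0 : 0 < h := by rw [hh]; positivity
  have hh1 : h ≤ 1 := by
    rw [hh]
    have h1 : 1 / (8 * ((3 : ℝ) ^ n + 2)) ≤ 1 := by
      rw [div_le_one (by positivity)]; linarith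
    have h2 : 1 / (M : ℝ) ≤ 1 := by rw [div_le_one hM0]; exact hM1
    calc 1 / (8 * ((3 : ℝ) ^ n + 2)) * (1 / M) ≤ 1 * 1 := by gcongr
      _ = 1 := one_mul 1
  have hW1 : (1 : ℝ) ≤ (2 * n) ^ M := one_le_pow₀ (by linarith)
  have hW : (1 : ℝ) ≤ M * (2 * n) ^ M := by nlinarith
  have hlW : 0 ≤ lW n M := Real.log_nonneg hW
  have hlog8 : 0 ≤ Real.log 8 := Real.log_nonneg (by norm_num)
  -- the scales
  have hmono : Monotone (kap n c) := monotone_nat_of_le_succ fun k => by
    unfold kap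
    have := Real.log_le_log (dl_pos hn hc (k + 1)) (dl_anti hn hc k)
    linarith
  have hk0 : kap n c 0 ≤ 0 := by
    unfold kap
    have := Real.log_nonneg (dl_zero hn hc)
    linarith
  have hPM : 0 < ‖P n c c M‖ := by linarith
  have hkM : aa n c M - 2 < kap n c M := by
    unfold kap aa
    have h1 := Real.log_le_log (mul_pos (dl_pos hn hc M) hPM) (dl_der hn hc M)
    rw [Real.log_mul (dl_pos hn hc M).ne' hPM.ne'] at h1
    have h2 : Real.log 3 < 2 := by
      have := Real.log_lt_sub_one_of_pos (show (0 : ℝ) < 3 by norm_num) (by norm_num)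
      linarith
    linarith
  obtain ⟨x0, hx0⟩ : ∃ x0, x0 = m + Real.log 8 := ⟨_, rfl⟩
  have hx0p : 0 ≤ x0 := by rw [hx0]; linarith
  have hL4 : 0 ≤ L + 4 := by linarith
  have hkex : ∀ i : ℕ, ∃ k, i < q → (1 ≤ k ∧ k ≤ M ∧ kap n c (k - 1) + 1 / M ≤ kap n c k ∧
      x0 + i * (L + 4) < kap n c k ∧ kap n c k ≤ x0 + i * (L + 4) + 2 + L) := by
    intro i
    by_cases hi : i < q
    · obtain ⟨k, hk⟩ := jump (kap n c) hmono (L := L) (lam := 1 / M) (x := x0 + i * (L + 4))
        (M := M) (by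
          have : 0 ≤ (i : ℝ) * (L + 4) := by positivity
          linarith) hL
        (by rw [mul_one_div, div_self hM0.ne']) (by positivity)
        (by
          have h1 : ((i + 1 : ℕ) : ℝ) ≤ q := by exact_mod_cast hi
          have h2 : ((i + 1 : ℕ) : ℝ) * (L + 4) ≤ q * (L + 4) :=
            mul_le_mul_of_nonneg_right h1 hL4
          push_cast at h2
          linarith)
      exact ⟨k, fun _ => hk⟩
    · exact ⟨0, fun h => absurd h hi⟩
  choose k hk using hkex
  have hkle : ∀ i < q, kap n c (k i) ≤ x0 + q * (L + 4) := by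
    intro i hi
    obtain ⟨-, -, -, -, h5⟩ := hk i hi
    have h1 : ((i + 1 : ℕ) : ℝ) ≤ q := by exact_mod_cast hi
    have h2 : ((i + 1 : ℕ) : ℝ) * (L + 4) ≤ q * (L + 4) := mul_le_mul_of_nonneg_right h1 hL4
    push_cast at h2
    linarith
  have hyex : ∀ i : ℕ, ∃ y : ℂ, i < q → (‖y - c‖ = dl n c (k i) ∧
      ∀ x ∈ ball y (h * dl n c (k i)), x ∈ UU n c (k i - 1) ∧ x ∉ UU n c (k i + 1)) := by
    intro i
    by_cases hi : i < q
    · obtain ⟨h1, -, h3, -, -⟩ := hk i hi
      obtain ⟨y, hy⟩ := hole2 hn hc h1 (lam := 1 / M) (by positivity) (by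
        have h4 : Real.exp (1 / M) * dl n c (k i) ≤ dl n c (k i - 1) := by
          rw [← exp_kap hn hc (k i), ← exp_kap hn hc (k i - 1), ← Real.exp_add]
          apply Real.exp_le_exp.mpr
          linarith
        refine le_trans ?_ h4
        have h5 := Real.add_one_le_exp (1 / (M : ℝ))
        have h6 := (dl_pos hn hc (k i)).le
        gcongr
        linarith)
      rw [← hh] at hy
      exact ⟨y, fun _ => hy⟩
    · exact ⟨0, fun h => absurd h hi⟩
  choose y hy using hyex
  -- the function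
  obtain ⟨J', rfl⟩ : ∃ J', J = J' + 1 := ⟨J - 1, by omega⟩
  set R : ℝ := Real.exp (-m) / 2 with hR
  have hR0 : 0 < R := by positivity
  have hρ : ∀ i < J', Real.exp (-m) ≤ ‖orb n c c (i + 1) - c‖ := by
    intro i hi
    rw [← exp_kk0 h0 (by omega : 1 ≤ i + 1) (by omega : i + 1 ≤ M)]
    apply Real.exp_le_exp.mpr
    have := hdeep (i + 1) (by omega) (by omega)
    linarith
  have hfar : ∀ w ∈ ball c R, ∀ i < J', R ≤ ‖w - orb n c c (i + 1)‖ := by
    intro w hw i hi
    have h1 : ‖w - c‖ < R := by rwa [mem_ball, dist_eq_norm] at hw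
    have h2 := hρ i hi
    have h3 : ‖orb n c c (i + 1) - c‖ ≤ ‖w - orb n c c (i + 1)‖ + ‖w - c‖ := by
      calc ‖orb n c c (i + 1) - c‖ = ‖(w - c) - (w - orb n c c (i + 1))‖ := by ring_nf
        _ ≤ ‖w - c‖ + ‖w - orb n c c (i + 1)‖ := norm_sub_le _ _
        _ = _ := add_comm _ _
    linarith
  have hG : DifferentiableOn ℂ (gg n c J') (ball c R) := by
    intro w hw
    apply DifferentiableAt.differentiableWithinAt
    unfold gg
    apply DifferentiableAt.const_add
    apply DifferentiableAt.mul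
    · exact differentiableAt_id.sub_const _
    · apply DifferentiableAt.fun_sum
      intro i hi
      apply DifferentiableAt.div
      · exact differentiableAt_const _
      · exact differentiableAt_id.sub_const _
      · have := hfar w hw i (Finset.mem_range.mp hi)
        intro h1
        rw [h1, norm_zero] at this
        linarith
  have hGl : ∀ w ∈ ball c R, ‖gg n c J' w‖ ≤ Real.exp (lW n M) := by
    intro w hw
    have h1 : ‖w - c‖ < R := by rwa [mem_ball, dist_eq_norm] at hw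
    unfold lW
    rw [Real.exp_log (by linarith)]
    unfold gg
    have h2 : ‖(w - c) * ∑ i ∈ Finset.range J', (P n c c (i + 1))⁻¹ / (w - orb n c c (i + 1))‖ ≤
        J' * (2 * n) ^ M := by
      rw [Finset.mul_sum]
      calc ‖∑ i ∈ Finset.range J', (w - c) * ((P n c c (i + 1))⁻¹ / (w - orb n c c (i + 1)))‖
          ≤ ∑ i ∈ Finset.range J', ‖(w - c) * ((P n c c (i + 1))⁻¹ / (w - orb n c c (i + 1)))‖ :=
            norm_sum_le _ _
        _ ≤ ∑ i ∈ Finset.range J', (2 * n : ℝ) ^ M := by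
            apply Finset.sum_le_sum
            intro i hi
            rw [Finset.mem_range] at hi
            have h3 := hfar w hw i hi
            have h4 := inv_le hn hc hP1 (by omega : i + 1 ≤ M)
            rw [norm_mul, norm_div]
            have h5 : 0 < ‖w - orb n c c (i + 1)‖ := by linarith
            calc ‖w - c‖ * (‖(P n c c (i + 1))⁻¹‖ / ‖w - orb n c c (i + 1)‖)
                ≤ ‖w - orb n c c (i + 1)‖ * (‖(P n c c (i + 1))⁻¹‖ / ‖w - orb n c c (i + 1)‖) := by
                  gcongr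
                  linarith
              _ = ‖(P n c c (i + 1))⁻¹‖ := by field_simp
              _ ≤ _ := h4
        _ = J' * (2 * n : ℝ) ^ M := by rw [Finset.sum_const, Finset.card_range, nsmul_eq_mul]
    have h3 : (J' : ℝ) + 1 ≤ M := by exact_mod_cast hJM
    calc ‖1 + (w - c) * ∑ i ∈ Finset.range J', (P n c c (i + 1))⁻¹ / (w - orb n c c (i + 1))‖
        ≤ ‖(1 : ℂ)‖ + J' * (2 * n) ^ M := (norm_add_le _ _).trans (by linarith)
      _ ≤ 1 * (2 * n) ^ M + J' * (2 * n) ^ M := by rw [norm_one]; linarith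
      _ = (J' + 1) * (2 * n) ^ M := by ring
      _ ≤ _ := by gcongr
  set e : ℝ := Real.log ε + Real.log (12 / h ^ 2) + (x0 + q * (L + 4)) with he
  have hge : ∀ i < q, ∀ w ∈ closedBall (y i) (h / 2 * dl n c (k i)),
      ‖gg n c J' w‖ ≤ Real.exp e := by
    intro i hi w hw
    obtain ⟨k1, k2, k3, k4, k5⟩ := hk i hi
    obtain ⟨y1, y2⟩ := hy i hi
    have hkl := hkle i hi
    have hδ := dl_pos hn hc (k i)
    have hexp := exp_kap hn hc (k i)
    set δ : ℝ := dl n c (k i) with hδd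
    have hw1 : ‖w - y i‖ ≤ h / 2 * δ := by rwa [mem_closedBall, dist_eq_norm] at hw
    have hs : 0 < h / 2 * δ := by positivity
    have hsub : ∀ x ∈ ball w (h / 2 * δ), x ∈ UU n c (k i - 1) ∧ x ∉ UU n c (k i + 1) := by
      intro x hx
      apply y2
      rw [mem_ball, dist_eq_norm] at hx ⊢
      calc ‖x - y i‖ = ‖(x - w) + (w - y i)‖ := by ring_nf
        _ ≤ ‖x - w‖ + ‖w - y i‖ := norm_add_le _ _
        _ < h * δ := by linarith
    have h1 := qd_le hn hc (fun j hj => h0 j (by omega)) hε.le hmass k1 hs hsub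
    have hδ1 : ‖w - c‖ ≤ 3 / 2 * δ := by
      calc ‖w - c‖ = ‖(w - y i) + (y i - c)‖ := by ring_nf
        _ ≤ ‖w - y i‖ + ‖y i - c‖ := norm_add_le _ _
        _ ≤ h / 2 * δ + δ := by rw [y1]; linarith
        _ ≤ 1 / 2 * δ + δ := by gcongr
        _ = _ := by ring
    have hwc : w ≠ c := by
      intro h2
      rw [h2, norm_sub_rev, y1] at hw1
      have : h / 2 * δ ≤ 1 / 2 * δ := by gcongr
      linarith
    rw [gg_eq n J' hwc, norm_mul]
    have h2 : Real.exp e = ε * (12 / h ^ 2) * Real.exp (x0 + q * (L + 4)) := by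
      rw [he, Real.exp_add, Real.exp_add, Real.exp_log hε, Real.exp_log (by positivity)]
    have h3 : 1 / δ ≤ Real.exp (x0 + q * (L + 4)) := by
      rw [← hexp, one_div, ← Real.exp_neg, neg_neg]
      exact Real.exp_le_exp.mpr hkl
    rw [h2]
    calc ‖w - c‖ * ‖qd n c (J' + 1) w‖ ≤ 3 / 2 * δ * (2 * ε / (h / 2 * δ) ^ 2) := by gcongr
      _ = ε * (12 / h ^ 2) * (1 / δ) := by field_simp; ring
      _ ≤ _ := by gcongr
  have hkey := iter (G := gg n c J') (c := c) (R := R) (g := h / 2) (e := e) (l := lW n M)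
    (by positivity) (by linarith) hG hGl (q := q) y (fun i => dl n c (k i))
    (fun i _ => dl_pos hn hc (k i))
    (by
      intro hq0
      obtain ⟨-, -, -, k4, -⟩ := hk 0 hq0
      have h1 : dl n c (k 0) < Real.exp (-(m + Real.log 8)) := by
        rw [← exp_kap hn hc (k 0)]
        apply Real.exp_lt_exp.mpr
        push_cast at k4
        linarith
      rw [neg_add, Real.exp_add, Real.exp_neg (Real.log 8), Real.exp_log (by norm_num)] at h1
      change 4 * dl n c (k 0) < R
      rw [hR]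
      linarith)
    (by
      intro i hi
      obtain ⟨-, -, -, k4, -⟩ := hk (i + 1) hi
      obtain ⟨-, -, -, -, k5⟩ := hk i (by omega)
      have h1 : dl n c (k (i + 1)) ≤ Real.exp (-2) * dl n c (k i) := by
        rw [← exp_kap hn hc (k (i + 1)), ← exp_kap hn hc (k i), ← Real.exp_add]
        apply Real.exp_le_exp.mpr
        push_cast at k4
        linarith
      have h2 : Real.exp (-2) ≤ 1 / 5 := by
        rw [Real.exp_neg, inv_eq_one_div]
        apply one_div_le_one_div_of_le (by norm_num)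
        have := Real.quadratic_le_exp_of_nonneg (show (0 : ℝ) ≤ 2 by norm_num)
        linarith
      have h3 := dl_pos hn hc (k i)
      have h4 : Real.exp (-2) * dl n c (k i) ≤ 1 / 5 * dl n c (k i) := by gcongr
      linarith)
    (fun i hi => (hy i hi).1) hge hR0
  rw [gg_self, norm_one] at hkey
  have hkey := Real.exp_le_exp.mp (Real.exp_zero.trans_le hkey)
  set Ω : ℝ := (1 - om (h / 2)) ^ q with hΩ
  have hom := om_le (g := h / 2) (by positivity) (by linarith)
  have hΩ0 : 0 ≤ Ω := pow_nonneg (by linarith) _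
  have h1 : Ω * 1 ≤ Ω * (1 + lW n M) := by
    apply mul_le_mul_of_nonneg_left _ hΩ0
    linarith
  have h2 : Ω * lW n M ≤ Ω * (1 + lW n M) := by
    apply mul_le_mul_of_nonneg_left _ hΩ0
    linarith
  rw [← hx0]
  by_contra hcon
  push Not at hcon
  change e < -1 at hcon
  nlinarith

end Pool.Agent.T2H09.LV
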