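import Pool.Agent.T2H09.LV.Est

/-!
# Shadowing, traps and gaps between deep returns; growth of the record times
-/

set_option autoImplicit false
open Set Filter Topology Metric

namespace Pool.Agent.T2H09.LV

open Pool.Agent.W746.LD Pool.Agent.T2H09.DH Pool.Agent.T2H09.LU N62a1eb23

/-- A holomorphic map of a disc into a much smaller concentric disc. -/
theorem attr_per {n : ℕ} {c : ℂ} {N : ℕ} (hN : 1 ≤ N) {s : ℝ} (hs : 0 < s)
    (h : ∀ x : ℂ, ‖x - c‖ ≤ s → ‖orb n c x N - c‖ ≤ s / 4) :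
    ∃ z, IsAttractingCycle (fun z => z ^ n + c) N z := by
  have hder : ∀ x : ℂ, HasDerivAt (fun z => orb n c z N) (P n c x N) x :=
    fun x => hasDerivAt_orb x N
  have hbd : ∀ x ∈ closedBall c (s / 4), ‖P n c x N‖ ≤ 1 / 3 := by
    intro x hx
    have hx' : ‖x - c‖ ≤ s / 4 := by simpa [dist_eq_norm] using hx
    have h1 : HasDerivAt (fun z => orb n c z N - c) (P n c x N) x := (hder x).sub_const c
    have h2 : ‖deriv (fun z => orb n c z N - c) x‖ ≤ s / 4 / (3 * s / 4) := by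
      apply Complex.norm_deriv_le_of_forall_mem_sphere_norm_le (by positivity)
      · exact Differentiable.diffContOnCl fun z => ((hder z).sub_const c).differentiableAt
      · intro z hz
        apply h
        have h3 : ‖z - x‖ = 3 * s / 4 := by simpa [dist_eq_norm] using hz
        calc ‖z - c‖ = ‖(z - x) + (x - c)‖ := by ring_nf
          _ ≤ ‖z - x‖ + ‖x - c‖ := norm_add_le _ _
          _ ≤ s := by linarith
    rw [h1.deriv] at h2
    have h4 : s / 4 / (3 * s / 4) = 1 / 3 := by field_simp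
    linarith
  have hmaps : MapsTo (fun z => orb n c z N) (closedBall c (s / 4)) (closedBall c (s / 4)) := by
    intro x hx
    have hx' : ‖x - c‖ ≤ s / 4 := by simpa [dist_eq_norm] using hx
    have := h x (by linarith)
    simpa [dist_eq_norm] using this
  have hcon : ContractingWith (1 / 3) (hmaps.restrict (fun z => orb n c z N) _ _) := by
    refine ⟨by norm_num, ?_⟩
    apply LipschitzWith.of_dist_le_mul
    rintro ⟨x, hx⟩ ⟨y, hy⟩
    have := (convex_closedBall c (s / 4)).norm_image_sub_le_of_norm_hasDerivWithin_le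
      (f := fun z => orb n c z N) (f' := fun z => P n c z N) (C := 1 / 3)
      (fun z _ => (hder z).hasDerivWithinAt) hbd hy hx
    simpa [Subtype.dist_eq, dist_eq_norm] using this
  obtain ⟨z, hz, hfix, -, -⟩ := ContractingWith.exists_fixedPoint' (isClosed_closedBall.isComplete)
    hmaps hcon (x := c) (mem_closedBall_self (by positivity)) (edist_ne_top _ _)
  refine ⟨z, by omega, hfix, (hder z).differentiableAt, ?_⟩
  have h5 : deriv (fun z => orb n c z N) z = P n c z N := (hder z).deriv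
  have h6 := hbd z hz
  rw [← h5] at h6
  exact lt_of_le_of_lt h6 (by norm_num)

theorem shadow {n : ℕ} (hn : 2 ≤ n) {c : ℂ} {N : ℕ} {θ K s : ℝ} (hK : 0 < K)
    (hθ : (1 + 1 / K) ^ (n - 1) ≤ θ)
    (h : ∀ i < N, θ ^ i * ‖P n c c i‖ * s ≤ ‖orb n c c i‖ / K) {x : ℂ} (hx : ‖x - c‖ ≤ s) :
    ∀ i ≤ N, ‖orb n c x i - orb n c c i‖ ≤ θ ^ i * ‖P n c c i‖ * s := by
  have hθ0 : 0 ≤ θ := le_trans (by positivity) hθ
  intro i
  induction i with
  | zero => intro _; simpa using hx
  | succ i ih =>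
    intro hi
    have h1 := ih (by omega)
    have h2 := h i (by omega)
    have h3 := norm_pow_sub_le hn hK hθ (h1.trans h2)
    rw [orb_succ, orb_succ, add_sub_add_right_eq_sub, norm_P_succ]
    calc ‖orb n c x i ^ n - orb n c c i ^ n‖
        ≤ n * ‖orb n c c i‖ ^ (n - 1) * θ * ‖orb n c x i - orb n c c i‖ := h3
      _ ≤ n * ‖orb n c c i‖ ^ (n - 1) * θ * (θ ^ i * ‖P n c c i‖ * s) := by gcongr
      _ = _ := by ring

/-- Shadowing in logarithmic form. -/
theorem shadow_b {n : ℕ} (hn : 2 ≤ n) {c : ℂ} {M : ℕ} (hM : 1 ≤ M)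
    (h0 : ∀ j < M, orb n c c j ≠ 0) {N : ℕ} (hN : N ≤ M) {σ : ℝ}
    (hb : ∀ i, 1 ≤ i → i ≤ N → aa n c i + kk n c i + 1 + Real.log M ≤ σ) {x : ℂ}
    (hx : ‖x - c‖ ≤ Real.exp (-σ)) :
    ∀ i ≤ N, ‖orb n c x i - orb n c c i‖ ≤ Real.exp (1 + aa n c i - σ) := by
  have hn0 : (0 : ℝ) < n := by exact_mod_cast (by omega : 0 < n)
  have hM0 : (0 : ℝ) < M := by exact_mod_cast hM
  have hP : ∀ i ≤ M, 0 < ‖P n c c i‖ := fun i hi => norm_pos_iff.mpr (P_ne hn h0 hi)
  have hK0 : (0 : ℝ) < n * M := by positivity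
  have hθ : (1 + 1 / ((n : ℝ) * M)) ^ (n - 1) ≤ Real.exp (1 / M) := by
    have h1 : 1 + 1 / ((n : ℝ) * M) ≤ Real.exp (1 / (n * M)) := by
      have := Real.add_one_le_exp (1 / ((n : ℝ) * M))
      linarith
    calc (1 + 1 / ((n : ℝ) * M)) ^ (n - 1) ≤ Real.exp (1 / (n * M)) ^ (n - 1) := by gcongr
      _ = Real.exp (((n - 1 : ℕ) : ℝ) * (1 / (n * M))) := by rw [Real.exp_nat_mul]
      _ ≤ Real.exp (1 / M) := by
        apply Real.exp_le_exp.mpr
        rw [Nat.cast_sub (by omega)]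
        push_cast
        rw [mul_one_div, div_le_div_iff₀ hK0 hM0]
        nlinarith
  have hiM : ∀ i ≤ M, (i : ℝ) * (1 / M) ≤ 1 := by
    intro i hi
    rw [mul_one_div, div_le_one hM0]
    exact_mod_cast hi
  intro i hi
  have key := shadow hn hK0 hθ (N := N) (by
    intro i hi
    have hci : 0 < ‖orb n c c i‖ := norm_pos_iff.mpr (h0 i (by omega))
    rw [← Real.log_le_log_iff (by have := hP i (by omega); positivity) (by positivity),
      Real.log_mul (by have := hP i (by omega); positivity) (Real.exp_pos _).ne',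
      Real.log_mul (Real.exp_pos _ |>.ne' |> pow_ne_zero i) (hP i (by omega)).ne',
      ← Real.exp_nat_mul, Real.log_exp, Real.log_exp, Real.log_div hci.ne' hK0.ne',
      Real.log_mul hn0.ne' hM0.ne']
    have h1 := hb (i + 1) (by omega) (by omega)
    have hk1 : kk n c (i + 1) = -(n * Real.log ‖orb n c c i‖) := by
      unfold kk
      rw [norm_orb_succ_sub, Real.log_pow]
    have ha1 : aa n c (i + 1) = Real.log ‖P n c c i‖ + Real.log n +
        (n - 1) * Real.log ‖orb n c c i‖ := by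
      unfold aa
      rw [norm_P_succ, Real.log_mul (hP i (by omega)).ne' (by positivity),
        Real.log_mul hn0.ne' (by positivity), Real.log_pow, Nat.cast_sub (by omega)]
      push_cast
      ring
    rw [hk1, ha1] at h1
    have := hiM i (by omega)
    linarith) hx i hi
  refine key.trans ?_
  rw [← Real.exp_nat_mul, ← Real.exp_log (hP i (by omega)), ← Real.exp_add, ← Real.exp_add]
  apply Real.exp_le_exp.mpr
  have := hiM i (by omega)
  unfold aa
  linarith

/-- A deep return without previous expansion gives an attracting cycle. -/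
theorem trap_b {n : ℕ} (hn : 2 ≤ n) {c : ℂ} {M : ℕ} (hM : 1 ≤ M)
    (h0 : ∀ j < M, orb n c c j ≠ 0) {J : ℕ} (hJ1 : 1 ≤ J) (hJM : J ≤ M)
    (hb : ∀ i, 1 ≤ i → i ≤ J → aa n c i + kk n c i + 1 + Real.log M + Real.log 8 ≤ kk n c J) :
    ∃ z, IsAttractingCycle (fun z => z ^ n + c) J z := by
  have hM1 : (1 : ℝ) ≤ M := by exact_mod_cast hM
  have hlM : 0 ≤ Real.log M := Real.log_nonneg hM1
  have hexp := exp_kk0 h0 hJ1 hJM
  have hs : Real.exp (-(kk n c J - Real.log 8)) = 8 * ‖orb n c c J - c‖ := by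
    rw [← hexp, neg_sub, sub_eq_add_neg, Real.exp_add, Real.exp_log (by norm_num)]
  apply attr_per hJ1 (s := 8 * ‖orb n c c J - c‖) (by rw [← hs]; exact Real.exp_pos _)
  intro x hx
  rw [← hs] at hx
  have h1 := shadow_b hn hM h0 hJM (σ := kk n c J - Real.log 8)
    (fun i hi1 hi2 => by have := hb i hi1 hi2; linarith) hx J le_rfl
  have h2 : Real.exp (1 + aa n c J - (kk n c J - Real.log 8)) ≤ ‖orb n c c J - c‖ := by
    rw [← hexp]
    apply Real.exp_le_exp.mpr
    have := hb J hJ1 le_rfl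
    linarith
  calc ‖orb n c x J - c‖ = ‖(orb n c x J - orb n c c J) + (orb n c c J - c)‖ := by ring_nf
    _ ≤ ‖orb n c x J - orb n c c J‖ + ‖orb n c c J - c‖ := norm_add_le _ _
    _ ≤ 8 * ‖orb n c c J - c‖ / 4 := by linarith

/-- Two deep returns are far apart in time. -/
theorem gap {n : ℕ} (hn : 2 ≤ n) {c : ℂ} {M : ℕ}
    (h0 : ∀ j < M, orb n c c j ≠ 0) {j d : ℕ} (hj : 1 ≤ j) (hd : 1 ≤ d) (hjd : j + d ≤ M) {x : ℝ}
    (h1 : x ≤ kk n c j) (h2 : x ≤ kk n c (j + d))
    (hb : ∀ i, 1 ≤ i → i ≤ d → aa n c i + kk n c i + 3 + Real.log M ≤ x)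
    (hk : kk n c d + 2 ≤ x) : False := by
  have hM : 1 ≤ M := by omega
  have hM1 : (1 : ℝ) ≤ M := by exact_mod_cast hM
  have hlM : 0 ≤ Real.log M := Real.log_nonneg hM1
  have e1 := exp_kk0 h0 hj (by omega : j ≤ M)
  have e2 := exp_kk0 h0 (by omega : 1 ≤ j + d) hjd
  have e3 := exp_kk0 h0 hd (by omega : d ≤ M)
  have h3 := shadow_b hn hM h0 (N := d) (by omega) (σ := x)
    (fun i hi1 hi2 => by have := hb i hi1 hi2; linarith) (x := orb n c c j)
    (by rw [← e1]; exact Real.exp_le_exp.mpr (by linarith)) d le_rfl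
  have e4 : orb n c (orb n c c j) d = orb n c c (j + d) := by
    rw [orb_add]
  rw [e4] at h3
  have h4 : ‖orb n c c d - c‖ ≤ ‖orb n c c (j + d) - orb n c c d‖ + ‖orb n c c (j + d) - c‖ := by
    calc ‖orb n c c d - c‖ = ‖(orb n c c (j + d) - c) - (orb n c c (j + d) - orb n c c d)‖ := by
          ring_nf
      _ ≤ ‖orb n c c (j + d) - c‖ + ‖orb n c c (j + d) - orb n c c d‖ := norm_sub_le _ _
      _ = _ := add_comm _ _
  rw [← e3, ← e2] at h4
  have h5 : Real.exp (1 + aa n c d - x) ≤ Real.exp (-2) * Real.exp (-kk n c d) := by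
    rw [← Real.exp_add]
    apply Real.exp_le_exp.mpr
    have := hb d hd le_rfl
    linarith
  have h6 : Real.exp (-kk n c (j + d)) ≤ Real.exp (-2) * Real.exp (-kk n c d) := by
    rw [← Real.exp_add]
    apply Real.exp_le_exp.mpr
    linarith
  have h7 : Real.exp (-2) ≤ 1 / 3 := by
    rw [Real.exp_neg, inv_eq_one_div]
    apply one_div_le_one_div_of_le (by norm_num)
    have := Real.add_one_le_exp (2 : ℝ)
    linarith
  have h8 := Real.exp_pos (-kk n c d)
  nlinarith

/-- Record times grow exponentially. -/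
theorem growth (D : ℕ → ℕ → Prop) (hanti : ∀ i j, D (i + 1) j → D i j) {I M : ℕ}
    (hex : ∀ i ≤ I, ∃ j, 1 ≤ j ∧ j ≤ M ∧ D i j)
    (hrec : ∀ i < I, ∀ J, 1 ≤ J → J ≤ M → (∀ j, 1 ≤ j → j < J → ¬ D i j) → ¬ D (i + 1) J)
    (hgap : ∀ i < I, ∀ j d, 1 ≤ j → 1 ≤ d → j + d ≤ M → D (i + 1) j → D (i + 1) (j + d) →
      ∃ l, 1 ≤ l ∧ l ≤ d ∧ D i l) :
    ∀ l, 2 * l ≤ I → 2 ^ l ≤ M := by
  classical
  have hT : ∀ i, ∃ t, i ≤ I → (1 ≤ t ∧ t ≤ M ∧ D i t ∧ ∀ j, 1 ≤ j → j < t → ¬ D i j) := by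
    intro i
    by_cases hi : i ≤ I
    · have hex' : ∃ j, 1 ≤ j ∧ D i j := by
        obtain ⟨j, h1, -, h3⟩ := hex i hi
        exact ⟨j, h1, h3⟩
      refine ⟨Nat.find hex', fun _ => ⟨(Nat.find_spec hex').1, ?_, (Nat.find_spec hex').2, ?_⟩⟩
      · obtain ⟨j, h1, h2, h3⟩ := hex i hi
        exact (Nat.find_min' hex' ⟨h1, h3⟩).trans h2
      · intro j h1 h2 h3
        exact Nat.find_min hex' h2 ⟨h1, h3⟩
    · exact ⟨0, fun h => absurd h hi⟩
  choose T hT using hT
  have hle : ∀ i, i ≤ I → ∀ j, 1 ≤ j → D i j → T i ≤ j := by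
    intro i hi j h1 h2
    by_contra hlt
    push Not at hlt
    exact (hT i hi).2.2.2 j h1 hlt h2
  have hlt : ∀ i, i + 1 ≤ I → T i < T (i + 1) := by
    intro i hi
    obtain ⟨a1, a2, a3, -⟩ := hT (i + 1) hi
    obtain ⟨b1, b2, b3, b4⟩ := hT i (by omega)
    have h1 := hle i (by omega) (T (i + 1)) a1 (hanti i _ a3)
    rcases h1.lt_or_eq with h | h
    · exact h
    · exfalso
      apply hrec i (by omega) (T i) b1 b2 b4
      rw [h]
      exact a3
  have hfib : ∀ i, i + 2 ≤ I → T (i + 1) + T i ≤ T (i + 2) := by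
    intro i hi
    obtain ⟨a1, a2, a3, -⟩ := hT (i + 2) hi
    obtain ⟨b1, b2, b3, b4⟩ := hT (i + 1) (by omega)
    have h1 : T (i + 1) < T (i + 2) := hlt (i + 1) (by omega)
    obtain ⟨l, hl1, hl2, hl3⟩ := hgap i (by omega) (T (i + 1)) (T (i + 2) - T (i + 1)) b1 (by omega)
      (by rw [Nat.add_sub_cancel' h1.le]; exact a2) b3
      (by rw [Nat.add_sub_cancel' h1.le]; exact hanti (i + 1) _ a3)
    have h2 := hle i (by omega) l hl1 hl3
    omega
  have key : ∀ l, 2 * l ≤ I → 2 ^ l ≤ T (2 * l) := by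
    intro l
    induction l with
    | zero => intro h; simpa using (hT 0 (by omega)).1
    | succ l ih =>
      intro hl
      have h1 := ih (by omega)
      have h2 := hfib (2 * l) (by omega)
      have h3 := hlt (2 * l) (by omega)
      rw [show 2 * (l + 1) = 2 * l + 2 by ring, pow_succ]
      omega
  intro l hl
  exact (key l hl).trans (hT (2 * l) hl).2.1

end Pool.Agent.T2H09.LV
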