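import Pool.Agent.T2H09.LV.Fin

/-!
# Close returns and fast escape near the critical value
-/

set_option autoImplicit false
open Set Filter Topology Metric

namespace Pool.Agent.T2H09.LV

open Pool.Agent.W746.LD Pool.Agent.T2H09.DH Pool.Agent.T2H09.LU N62a1eb23

/-- The parameters with an attracting cycle of period at most `N`. -/
def Near (n N : ℕ) (c : ℂ) (s : ℝ) : Prop :=
  ∃ c' : ℂ, ‖c' - c‖ ≤ s ∧ ∃ p ≤ N, ∃ z, IsAttractingCycle (fun z => z ^ n + c') p z

lemma Near.mono {n N N' : ℕ} {c : ℂ} {s s' : ℝ} (h : Near n N c s) (hN : N ≤ N') (hs : s ≤ s') :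
    Near n N' c s' := by
  obtain ⟨c', h1, p, h2, h3⟩ := h
  exact ⟨c', h1.trans hs, p, h2.trans hN, h3⟩

lemma bb_succ {n : ℕ} (hn : 2 ≤ n) {c : ℂ} {M : ℕ} (h0 : ∀ j < M, orb n c c j ≠ 0) {i : ℕ}
    (hi : i < M) : aa n c (i + 1) + kk n c (i + 1) = aa n c i + Real.log n + kk n c (i + 1) / n := by
  have hn0 : (0 : ℝ) < n := by exact_mod_cast (by omega : 0 < n)
  have hci : 0 < ‖orb n c c i‖ := norm_pos_iff.mpr (h0 i hi)
  have hPi : 0 < ‖P n c c i‖ := norm_pos_iff.mpr (P_ne hn h0 hi.le)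
  have hk1 : kk n c (i + 1) = -(n * Real.log ‖orb n c c i‖) := by
    unfold kk
    rw [norm_orb_succ_sub, Real.log_pow]
  have ha1 : aa n c (i + 1) = aa n c i + Real.log n + (n - 1) * Real.log ‖orb n c c i‖ := by
    unfold aa
    rw [norm_P_succ, Real.log_mul hPi.ne' (by positivity), Real.log_mul hn0.ne' (by positivity),
      Real.log_pow, Nat.cast_sub (by omega)]
    push_cast
    ring
  rw [hk1, ha1]
  field_simp
  ring

lemma near_of_zero {n : ℕ} (hn : 2 ≤ n) {c : ℂ} {N j : ℕ} (hj : j < N) (h : orb n c c j = 0)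
    {s : ℝ} (hs : 0 ≤ s) : Near n (N + 2) c s := by
  refine ⟨c, by simpa using hs, j + 1, by omega, 0, ?_⟩
  apply Pool.Agent.H548R3.MB.att_of_centre hn (by omega)
  have := P_eq_orb hn j c
  rw [h] at this
  exact this

/-- Growth at some time up to `N`. -/
theorem gr_aux {n : ℕ} (hn : 2 ≤ n) : ∃ C ε : ℝ, 0 < C ∧ 0 < ε ∧ ∀ c ∈ multibrotSet n,
    ∀ N : ℕ, 2 ≤ N → ∀ i, 1 ≤ i → i ≤ N → C * Real.log N ^ 3 ≤ aa n c i →
    Near n (N + 2) c (Real.exp (-(ε * aa n c i / Real.log N))) := by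
  obtain ⟨C, ε, hC, hε, h⟩ := quasiV hn
  have hn1 : (1 : ℝ) ≤ n := by exact_mod_cast (by omega : 1 ≤ n)
  obtain ⟨l2, hl2⟩ : ∃ l2, l2 = Real.log 2 := ⟨_, rfl⟩
  have hl20 : 0 < l2 := by rw [hl2]; exact Real.log_pos (by norm_num)
  have hln : 0 ≤ Real.log (2 * n) := Real.log_nonneg (by linarith)
  refine ⟨C + (Real.log (2 * n) + 1) / l2 ^ 3, ε, by positivity, hε, ?_⟩
  intro c hc N hN i hi1 hiN hyp
  have hN2 : (2 : ℝ) ≤ N := by exact_mod_cast hN
  have hll : l2 ≤ Real.log N := by rw [hl2]; exact Real.log_le_log (by norm_num) hN2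
  have hl0 : 0 < Real.log N := by linarith
  have hcube : l2 ^ 3 ≤ Real.log N ^ 3 := by gcongr
  have h1 : (Real.log (2 * n) + 1) / l2 ^ 3 * l2 ^ 3 ≤
      (Real.log (2 * n) + 1) / l2 ^ 3 * Real.log N ^ 3 := by gcongr
  have h2 : (Real.log (2 * n) + 1) / l2 ^ 3 * l2 ^ 3 = Real.log (2 * n) + 1 := by field_simp
  rw [h2] at h1
  have h3 : C * Real.log N ^ 3 ≤ aa n c i := by
    have : 0 ≤ (Real.log (2 * n) + 1) / l2 ^ 3 * Real.log N ^ 3 := by positivity
    linarith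
  have h4 : Real.log (2 * n) + 1 ≤ aa n c i := by
    have : 0 ≤ C * Real.log N ^ 3 := by positivity
    linarith
  have hi2 : 2 ≤ i := by
    by_contra hlt
    have hi : i = 1 := by omega
    rw [hi] at h4
    unfold aa at h4
    have h5 : Real.log ‖P n c c 1‖ ≤ Real.log (2 * n) := by
      have h6 := P_le hn hc 1
      rw [pow_one] at h6
      rcases (norm_nonneg (P n c c 1)).eq_or_lt with h7 | h7
      · rw [← h7, Real.log_zero]; exact hln
      · exact Real.log_le_log h7 h6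
    linarith
  have hi2' : (2 : ℝ) ≤ i := by exact_mod_cast hi2
  have hli : Real.log i ≤ Real.log N := Real.log_le_log (by linarith) (by exact_mod_cast hiN)
  have hli0 : 0 < Real.log i := Real.log_pos (by linarith)
  have h5 : C * Real.log i ^ 3 ≤ Real.log ‖P n c c i‖ := by
    refine le_trans ?_ h3
    gcongr
  have h6 : Near n (i + 2) c _ := h c hc i hi2 h5
  refine h6.mono (by omega) ?_
  apply Real.exp_le_exp.mpr
  change -(ε * aa n c i / Real.log i) ≤ _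
  have h7 : 0 ≤ aa n c i := by linarith
  have h8 : ε * aa n c i / Real.log N ≤ ε * aa n c i / Real.log i := by gcongr
  linarith

/-- Close returns at some time up to `N`. -/
theorem rec_aux {n : ℕ} (hn : 2 ≤ n) : ∃ C ε : ℝ, 0 < C ∧ 0 < ε ∧ ∀ c ∈ multibrotSet n,
    ∀ N : ℕ, 2 ≤ N → (∀ j < N, orb n c c j ≠ 0) → ∀ i, 1 ≤ i → i ≤ N →
    C * Real.log N ^ 3 ≤ kk n c i →
    Near n (N + 2) c (Real.exp (-(ε * kk n c i / Real.log N))) := by
  obtain ⟨C, ε, hC, hε, h⟩ := gr_aux hn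
  have hn1 : (1 : ℝ) ≤ n := by exact_mod_cast (by omega : 1 ≤ n)
  have hn2 : (2 : ℝ) ≤ n := by exact_mod_cast hn
  obtain ⟨l2, hl2⟩ : ∃ l2, l2 = Real.log 2 := ⟨_, rfl⟩
  have hl20 : 0 < l2 := by rw [hl2]; exact Real.log_pos (by norm_num)
  have hln : 0 ≤ Real.log n := Real.log_nonneg hn1
  have hl8 : 0 ≤ Real.log 8 := Real.log_nonneg (by norm_num)
  refine ⟨8 * C + 4 * ((Real.log n + 1 + Real.log 8) / l2 ^ 3 + 1 / l2 ^ 2), ε / 8, by positivity,
    by positivity, ?_⟩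
  intro c hc N hN h0 i hi1 hiN hyp
  have hN2 : (2 : ℝ) ≤ N := by exact_mod_cast hN
  have hll : l2 ≤ Real.log N := by rw [hl2]; exact Real.log_le_log (by norm_num) hN2
  have hl0 : 0 < Real.log N := by linarith
  have hcube : l2 ^ 3 ≤ Real.log N ^ 3 := by gcongr
  have hsq : l2 ^ 2 ≤ Real.log N ^ 2 := by gcongr
  have h1 : Real.log n + 1 + Real.log 8 ≤
      (Real.log n + 1 + Real.log 8) / l2 ^ 3 * Real.log N ^ 3 := by
    rw [div_mul_eq_mul_div, le_div_iff₀ (by positivity)]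
    gcongr
  have h2 : Real.log N ≤ 1 / l2 ^ 2 * Real.log N ^ 3 := by
    rw [div_mul_eq_mul_div, le_div_iff₀ (by positivity)]
    calc Real.log N * l2 ^ 2 ≤ Real.log N * Real.log N ^ 2 := by gcongr
      _ = 1 * Real.log N ^ 3 := by ring
  have hC8 : 0 ≤ 8 * C * Real.log N ^ 3 := by positivity
  have hk1 : 4 * (Real.log n + 1 + Real.log 8 + Real.log N) ≤ kk n c i := by linarith
  have hk2 : C * Real.log N ^ 3 ≤ kk n c i / 8 := by
    have : 0 ≤ 4 * ((Real.log n + 1 + Real.log 8) / l2 ^ 3 + 1 / l2 ^ 2) * Real.log N ^ 3 := by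
      positivity
    linarith
  set k : ℝ := kk n c i with hk
  have hk0 : 0 < k := by linarith
  by_cases hex : ∃ l, 1 ≤ l ∧ l ≤ N ∧ k / 8 ≤ aa n c l
  · obtain ⟨l, hl1, hlN, hlk⟩ := hex
    refine (h c hc N hN l hl1 hlN (hk2.trans hlk)).mono le_rfl ?_
    apply Real.exp_le_exp.mpr
    have h3 : ε / 8 * k / Real.log N ≤ ε * aa n c l / Real.log N := by
      have e : ε / 8 * k = ε * (k / 8) := by ring
      rw [e]
      gcongr
    linarith
  · push Not at hex
    obtain ⟨j, hj, hmax⟩ := Finset.exists_max_image (Finset.Icc 1 N) (kk n c) ⟨1, by simp; omega⟩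
    rw [Finset.mem_Icc] at hj
    have hkj : k ≤ kk n c j := hmax i (Finset.mem_Icc.mpr ⟨hi1, hiN⟩)
    obtain ⟨z, hz⟩ := trap_b hn (by omega : 1 ≤ N) h0 hj.1 hj.2 (by
      intro l hl1 hlj
      obtain ⟨l', rfl⟩ : ∃ l', l = l' + 1 := ⟨l - 1, by omega⟩
      rw [bb_succ hn h0 (by omega : l' < N)]
      have h3 : aa n c l' ≤ k / 8 := by
        rcases Nat.eq_zero_or_pos l' with h4 | h4
        · rw [h4]
          unfold aa
          rw [P_zero, norm_one, Real.log_one]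
          positivity
        · exact (hex l' h4 (by omega)).le
      have h5 : kk n c (l' + 1) ≤ kk n c j := hmax _ (Finset.mem_Icc.mpr ⟨hl1, by omega⟩)
      have h6 : kk n c (l' + 1) / n ≤ kk n c j / 2 := by
        calc kk n c (l' + 1) / n ≤ kk n c j / n := by gcongr
          _ ≤ kk n c j / 2 := by
            apply div_le_div_of_nonneg_left _ (by norm_num) hn2
            linarith
      linarith)
    exact ⟨c, by simpa using (Real.exp_pos _).le, j, by omega, z, hz⟩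

/-- Close returns of the critical value. -/
theorem recV {n : ℕ} (hn : 2 ≤ n) : ∃ C ε : ℝ, 0 < C ∧ 0 < ε ∧ ∀ c ∈ multibrotSet n,
    ∀ N : ℕ, 2 ≤ N → ‖orb n c c N - c‖ ≤ Real.exp (-(C * Real.log N ^ 3)) →
    Near n (N + 2) c (‖orb n c c N - c‖ ^ (ε / Real.log N)) := by
  obtain ⟨C, ε, hC, hε, h⟩ := rec_aux hn
  refine ⟨C, ε, hC, hε, ?_⟩
  intro c hc N hN hyp
  have hs : 0 ≤ ‖orb n c c N - c‖ ^ (ε / Real.log N) := by positivity
  by_cases h0 : ∀ j < N, orb n c c j ≠ 0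
  · have hρ := rho0 h0 (by omega : 1 ≤ N) le_rfl
    have h1 := h c hc N hN h0 N (by omega) le_rfl (by
      unfold kk
      have h2 := Real.log_le_log hρ hyp
      rw [Real.log_exp] at h2
      linarith)
    refine h1.mono le_rfl (le_of_eq ?_)
    rw [Real.rpow_def_of_pos hρ]
    congr 1
    unfold kk
    ring
  · push Not at h0
    obtain ⟨j, hj, h1⟩ := h0
    exact near_of_zero hn hj h1 hs

/-- Fast escape near the critical value. -/
theorem escV {n : ℕ} (hn : 2 ≤ n) : ∃ C ε : ℝ, 0 < C ∧ 0 < ε ∧ ∀ c ∈ multibrotSet n,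
    ∀ N : ℕ, 2 ≤ N → ∀ y : ℂ, 3 ≤ ‖orb n c y N‖ →
    ‖y - c‖ ≤ Real.exp (-(C * Real.log N ^ 3)) →
    Near n (N + 2) c (‖y - c‖ ^ (ε / Real.log N)) := by
  obtain ⟨C1, ε1, hC1, hε1, h1⟩ := gr_aux hn
  obtain ⟨C2, ε2, hC2, hε2, h2⟩ := rec_aux hn
  obtain ⟨l2, hl2⟩ : ∃ l2, l2 = Real.log 2 := ⟨_, rfl⟩
  have hl20 : 0 < l2 := by rw [hl2]; exact Real.log_pos (by norm_num)
  refine ⟨4 * C1 + 4 * C2 + 4 * (1 / l2 ^ 3 + 1 / l2 ^ 2), min ε1 ε2 / 4, by positivity,
    by positivity, ?_⟩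
  intro c hc N hN y hy3 hyp
  have hN2 : (2 : ℝ) ≤ N := by exact_mod_cast hN
  have hll : l2 ≤ Real.log N := by rw [hl2]; exact Real.log_le_log (by norm_num) hN2
  have hl0 : 0 < Real.log N := by linarith
  have hs : 0 ≤ ‖y - c‖ ^ (min ε1 ε2 / 4 / Real.log N) := by positivity
  by_cases h0 : ∀ j < N, orb n c c j ≠ 0
  swap
  · push Not at h0
    obtain ⟨j, hj, h1⟩ := h0
    exact near_of_zero hn hj h1 hs
  have hyc : 0 < ‖y - c‖ := by
    rw [norm_pos_iff, sub_ne_zero]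
    rintro rfl
    have := mem_multibrot_orb hn hc N
    linarith
  obtain ⟨x, hx⟩ : ∃ x, x = -Real.log ‖y - c‖ := ⟨_, rfl⟩
  have hexp : ‖y - c‖ = Real.exp (-x) := by rw [hx, neg_neg, Real.exp_log hyc]
  have hxC : (4 * C1 + 4 * C2 + 4 * (1 / l2 ^ 3 + 1 / l2 ^ 2)) * Real.log N ^ 3 ≤ x := by
    have h3 := Real.log_le_log hyc hyp
    rw [Real.log_exp] at h3
    linarith
  have hcube : 1 ≤ 1 / l2 ^ 3 * Real.log N ^ 3 := by
    rw [div_mul_eq_mul_div, le_div_iff₀ (by positivity)]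
    gcongr
  have hsq : Real.log N ≤ 1 / l2 ^ 2 * Real.log N ^ 3 := by
    rw [div_mul_eq_mul_div, le_div_iff₀ (by positivity)]
    calc Real.log N * l2 ^ 2 ≤ Real.log N * Real.log N ^ 2 := by gcongr
      _ = 1 * Real.log N ^ 3 := by ring
  have hp1 : 0 ≤ C1 * Real.log N ^ 3 := by positivity
  have hp2 : 0 ≤ C2 * Real.log N ^ 3 := by positivity
  have hx1 : 4 * (1 + Real.log N) ≤ x := by linarith
  have hxC1 : C1 * Real.log N ^ 3 ≤ x / 4 := by linarith
  have hxC2 : C2 * Real.log N ^ 3 ≤ x / 4 := by linarith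
  have hx0 : 0 < x := by linarith
  have fin : ∀ ε' v : ℝ, min ε1 ε2 ≤ ε' → x / 4 ≤ v →
      Near n (N + 2) c (Real.exp (-(ε' * v / Real.log N))) →
      Near n (N + 2) c (‖y - c‖ ^ (min ε1 ε2 / 4 / Real.log N)) := by
    intro ε' v hε' hv hnear
    refine hnear.mono le_rfl ?_
    rw [Real.rpow_def_of_pos hyc]
    apply Real.exp_le_exp.mpr
    have e : Real.log ‖y - c‖ * (min ε1 ε2 / 4 / Real.log N) =
        -(min ε1 ε2 * (x / 4) / Real.log N) := by
      rw [hx]; ring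
    rw [e]
    have hm : 0 < min ε1 ε2 := lt_min hε1 hε2
    have hε'0 : 0 ≤ ε' := hm.le.trans hε'
    have h3 : min ε1 ε2 * (x / 4) / Real.log N ≤ ε' * v / Real.log N := by gcongr
    linarith
  by_cases hb : ∀ i, 1 ≤ i → i ≤ N → aa n c i + kk n c i + 1 + Real.log N ≤ x
  · have h3 := shadow_b hn (by omega : 1 ≤ N) h0 le_rfl (σ := x) hb (x := y) hexp.le N le_rfl
    have h4 : 1 ≤ ‖orb n c y N - orb n c c N‖ := by
      have h5 := mem_multibrot_orb hn hc N
      have h6 := norm_sub_norm_le (orb n c y N) (orb n c c N)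
      linarith
    have h5 : 0 ≤ 1 + aa n c N - x :=
      Real.exp_le_exp.mp (Real.exp_zero.trans_le (h4.trans h3))
    exact fin ε1 (aa n c N) (min_le_left _ _) (by linarith)
      (h1 c hc N hN N (by omega) le_rfl (by linarith))
  · push Not at hb
    obtain ⟨i, hi1, hiN, hi⟩ := hb
    rcases le_or_gt (x / 4) (aa n c i) with ha | ha
    · exact fin ε1 (aa n c i) (min_le_left _ _) ha (h1 c hc N hN i hi1 hiN (by linarith))
    · exact fin ε2 (kk n c i) (min_le_right _ _) (by linarith)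
        (h2 c hc N hN h0 i hi1 hiN (by linarith))

end Pool.Agent.T2H09.LV
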