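import Mathlib

/-!
# Three circles, iterated
-/

set_option autoImplicit false
open Set Filter Topology Metric

namespace Pool.Agent.T2H09.LV

/-- The exponent of one step. -/
noncomputable def om (g : ℝ) : ℝ := Real.log (3 / 2) / Real.log (3 / g)

lemma om_pos {g : ℝ} (h0 : 0 < g) (h1 : g ≤ 1) : 0 < om g := by
  unfold om
  apply div_pos (Real.log_pos (by norm_num))
  apply Real.log_pos
  rw [lt_div_iff₀ h0]
  linarith

lemma om_le {g : ℝ} (h0 : 0 < g) (h1 : g ≤ 1) : om g ≤ 1 := by
  unfold om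
  have h2 : 0 < Real.log (3 / g) := by
    apply Real.log_pos
    rw [lt_div_iff₀ h0]
    linarith
  rw [div_le_one h2]
  apply Real.log_le_log (by norm_num)
  rw [div_le_div_iff₀ (by norm_num) h0]
  linarith

/-- Hadamard's three circles theorem. -/
theorem circles {G : ℂ → ℂ} {y : ℂ} {r1 r3 R e l : ℝ} (h1 : 0 < r1) (h13 : r1 < r3) (h3 : r3 < R)
    (hG : DifferentiableOn ℂ G (ball y R)) (hl : ∀ w ∈ closedBall y r3, ‖G w‖ ≤ Real.exp l)
    (he : ∀ w, ‖w - y‖ = r1 → ‖G w‖ ≤ Real.exp e) {w : ℂ} (hw1 : r1 ≤ ‖w - y‖)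
    (hw3 : ‖w - y‖ ≤ r3) :
    ‖G w‖ ≤ Real.exp (e + (Real.log ‖w - y‖ - Real.log r1) / (Real.log r3 - Real.log r1) *
      (l - e)) := by
  have hw0 : 0 < ‖w - y‖ := h1.trans_le hw1
  have hul : Real.log r1 < Real.log r3 := Real.log_lt_log h1 h13
  set F : ℂ → ℂ := fun z => G (y + Complex.exp z) with hF
  have hnorm : ∀ z : ℂ, ‖(y + Complex.exp z) - y‖ = Real.exp z.re := by
    intro z
    rw [add_sub_cancel_left, Complex.norm_exp]
  have h3' : 0 < r3 := h1.trans h13
  have hmem : ∀ z : ℂ, z.re ≤ Real.log r3 → y + Complex.exp z ∈ closedBall y r3 := by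
    intro z hz
    rw [mem_closedBall, dist_eq_norm, hnorm, ← Real.exp_log h3']
    exact Real.exp_le_exp.mpr hz
  have hmemB : ∀ z : ℂ, z.re ≤ Real.log r3 → y + Complex.exp z ∈ ball y R := fun z hz =>
    (closedBall_subset_ball h3) (hmem z hz)
  have hd : DifferentiableOn ℂ F {z : ℂ | z.re ≤ Real.log r3} := by
    apply hG.comp
    · exact (differentiable_const y).add Complex.differentiable_exp |>.differentiableOn
    · intro z hz
      exact hmemB z hz
  have hz0 : y + Complex.exp (Complex.log (w - y)) = w := by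
    rw [Complex.exp_log (norm_pos_iff.mp hw0)]
    ring
  have hre : (Complex.log (w - y)).re = Real.log ‖w - y‖ := Complex.log_re _
  have key := Complex.HadamardThreeLines.norm_le_interp_of_mem_verticalClosedStrip' (f := F)
    (z := Complex.log (w - y)) (a := Real.exp e) (b := Real.exp l) hul
    (by
      change (Complex.log (w - y)).re ∈ Icc _ _
      rw [hre]
      exact ⟨Real.log_le_log h1 hw1, Real.log_le_log hw0 hw3⟩)
    (by
      apply DifferentiableOn.diffContOnCl
      apply hd.mono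
      apply closure_minimal
      · intro z hz
        exact (hz.2 : z.re < _).le
      · exact isClosed_le Complex.continuous_re continuous_const)
    (by
      refine ⟨Real.exp l, ?_⟩
      rintro _ ⟨z, hz, rfl⟩
      exact hl _ (hmem z hz.2))
    (by
      intro z hz
      apply he
      rw [hnorm, show z.re = Real.log r1 from hz, Real.exp_log h1])
    (by
      intro z hz
      exact hl _ (hmem z (le_of_eq hz)))
  have e1 : F (Complex.log (w - y)) = G w := by
    change G (y + Complex.exp (Complex.log (w - y))) = G w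
    rw [hz0]
  rw [e1, hre, ← Real.exp_mul, ← Real.exp_mul, ← Real.exp_add] at key
  refine key.trans (le_of_eq ?_)
  congr 1
  ring

/-- One step: a small disc near the boundary of the disc of radius `δ`. -/
theorem step {G : ℂ → ℂ} {c y : ℂ} {s δ g e l : ℝ} (hδ : 0 < δ) (hs : 4 * δ < s) (hg0 : 0 < g)
    (hg1 : g ≤ 1) (hG : DifferentiableOn ℂ G (ball c s)) (hl : ∀ w ∈ ball c s, ‖G w‖ ≤ Real.exp l)
    (hy : ‖y - c‖ = δ) (he : ∀ w ∈ closedBall y (g * δ), ‖G w‖ ≤ Real.exp e) :
    ∀ w ∈ closedBall c δ, ‖G w‖ ≤ Real.exp (om g * e + (1 - om g) * l) := by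
  intro w hw
  have hw' : ‖w - c‖ ≤ δ := by rwa [mem_closedBall, dist_eq_norm] at hw
  have hωp := om_pos hg0 hg1
  have hω1 := om_le hg0 hg1
  have hwy : ‖w - y‖ ≤ 2 * δ := by
    calc ‖w - y‖ = ‖(w - c) - (y - c)‖ := by ring_nf
      _ ≤ ‖w - c‖ + ‖y - c‖ := norm_sub_le _ _
      _ ≤ 2 * δ := by rw [hy]; linarith
  have hsub : ∀ x : ℂ, ‖x - y‖ < s - δ → x ∈ ball c s := by
    intro x hx
    rw [mem_ball, dist_eq_norm]
    calc ‖x - c‖ = ‖(x - y) + (y - c)‖ := by ring_nf
      _ ≤ ‖x - y‖ + ‖y - c‖ := norm_add_le _ _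
      _ < s := by rw [hy]; linarith
  have hwl : ‖G w‖ ≤ Real.exp l := hl w (hsub w (by linarith))
  rcases le_or_gt l e with hle | hle
  · refine hwl.trans (Real.exp_le_exp.mpr ?_)
    nlinarith
  rcases le_or_gt (g * δ) ‖w - y‖ with h1 | h1
  · have hgδ : 0 < g * δ := by positivity
    have hg3 : g * δ < 3 * δ := by nlinarith
    have key := circles (G := G) (y := y) (r1 := g * δ) (r3 := 3 * δ) (R := s - δ) (e := e) (l := l)
      (w := w) hgδ hg3 (by linarith)
      (hG.mono fun x hx => hsub x (by rwa [mem_ball, dist_eq_norm] at hx))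
      (fun x hx => hl x (hsub x (by
        rw [mem_closedBall, dist_eq_norm] at hx
        linarith)))
      (fun x hx => he x (by rw [mem_closedBall, dist_eq_norm, hx])) h1 (by linarith)
    refine key.trans (Real.exp_le_exp.mpr ?_)
    have e3 : Real.log (3 * δ) - Real.log (g * δ) = Real.log (3 / g) := by
      rw [← Real.log_div (by positivity) (by positivity)]
      congr 1
      field_simp
    have h3g : 0 < Real.log (3 / g) := by
      apply Real.log_pos
      rw [lt_div_iff₀ hg0]
      linarith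
    have h2 : (Real.log ‖w - y‖ - Real.log (g * δ)) / (Real.log (3 * δ) - Real.log (g * δ)) ≤
        1 - om g := by
      rw [e3, div_le_iff₀ h3g]
      unfold om
      have e4 : (1 - Real.log (3 / 2) / Real.log (3 / g)) * Real.log (3 / g) =
          Real.log (3 / g) - Real.log (3 / 2) := by
        field_simp
      rw [e4, ← e3]
      have h4 : Real.log ‖w - y‖ ≤ Real.log (2 * δ) :=
        Real.log_le_log (hgδ.trans_le h1) hwy
      have e5 : Real.log (2 * δ) + Real.log (3 / 2) = Real.log (3 * δ) := by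
        rw [← Real.log_mul (by positivity) (by norm_num)]
        congr 1
        ring
      linarith
    have h5 : (Real.log ‖w - y‖ - Real.log (g * δ)) / (Real.log (3 * δ) - Real.log (g * δ)) *
        (l - e) ≤ (1 - om g) * (l - e) := by
      apply mul_le_mul_of_nonneg_right h2
      linarith
    linarith
  · have h2 : ‖G w‖ ≤ Real.exp e := he w (by rw [mem_closedBall, dist_eq_norm]; exact h1.le)
    refine h2.trans (Real.exp_le_exp.mpr ?_)
    nlinarith

/-- Iteration of `step`. -/
theorem iter {G : ℂ → ℂ} {c : ℂ} {R g e l : ℝ} (hg0 : 0 < g) (hg1 : g ≤ 1)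
    (hG : DifferentiableOn ℂ G (ball c R)) (hl : ∀ w ∈ ball c R, ‖G w‖ ≤ Real.exp l) {q : ℕ}
    (y : ℕ → ℂ) (δ : ℕ → ℝ) (hδ : ∀ i < q, 0 < δ i) (h0 : 0 < q → 4 * δ 0 < R)
    (hst : ∀ i, i + 1 < q → 4 * δ (i + 1) < δ i) (hy : ∀ i < q, ‖y i - c‖ = δ i)
    (he : ∀ i < q, ∀ w ∈ closedBall (y i) (g * δ i), ‖G w‖ ≤ Real.exp e) (hR : 0 < R) :
    ‖G c‖ ≤ Real.exp ((1 - (1 - om g) ^ q) * e + (1 - om g) ^ q * l) := by
  have key : ∀ i, i ≤ q → ∃ s, 0 < s ∧ s ≤ R ∧ (i < q → 4 * δ i < s) ∧
      ∀ w ∈ ball c s, ‖G w‖ ≤ Real.exp ((1 - (1 - om g) ^ i) * e + (1 - om g) ^ i * l) := by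
    intro i
    induction i with
    | zero =>
      intro _
      refine ⟨R, hR, le_rfl, fun h => h0 h, ?_⟩
      intro w hw
      simpa using hl w hw
    | succ i ih =>
      intro hi
      obtain ⟨s, hs0, hsR, hs, hb⟩ := ih (by omega)
      have hi' : i < q := by omega
      have hδi := hδ i hi'
      have h4 := hs hi'
      refine ⟨δ i, hδi, by linarith, fun h => hst i h, ?_⟩
      intro w hw
      have h5 := step hδi h4 hg0 hg1 (hG.mono (ball_subset_ball hsR)) hb (hy i hi')
        (he i hi') w (ball_subset_closedBall hw)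
      refine h5.trans (le_of_eq ?_)
      congr 1
      rw [pow_succ]
      ring
  obtain ⟨s, hs0, -, -, hb⟩ := key q le_rfl
  exact hb c (mem_ball_self hs0)

end Pool.Agent.T2H09.LV
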